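import Pool.Agent.Y994.MC.Lim
import Mathlib.MeasureTheory.Measure.Hausdorff

/-!
Hausdorff measure of the pieces.
-/

set_option autoImplicit false

namespace Y994.MC

open H974 Finset H342P H984P H984N MeasureTheory Filter Topology
open scoped ENNReal

/-- index of the block of a point -/
noncomputable def zb (w : ℝ) (z : ℂ) : Vtx := (⌊z.re / w⌋, ⌊z.im / w⌋)

theorem fl_dist {w : ℝ} (hw : 0 < w) (x : ℝ) : |x - w * ((⌊x / w⌋ : ℝ) + 1/2)| ≤ w / 2 := by
  have h1 := Int.floor_le (x / w)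
  have h2 := Int.lt_floor_add_one (x / w)
  rw [le_div_iff₀ hw] at h1
  rw [div_lt_iff₀ hw] at h2
  rw [abs_le]
  constructor <;> linarith

theorem zb_dist {w : ℝ} (hw : 0 < w) (z : ℂ) : dist z (ctr 0 w (zb w z)) ≤ w := by
  refine (ML.dist_le_of (a := w / 2) (b := w / 2) ?_ ?_).trans (by linarith)
  · exact fl_dist hw z.re
  · have e : (ctr 0 w (zb w z)).im = w * ((⌊z.im / w⌋ : ℝ) + 1/2) := by
      unfold ctr zb
      simp
    rw [e]
    exact fl_dist hw z.im

theorem zb_fin {w : ℝ} (hw : 0 < w) {Γ : Set ℂ} (hΓ : Bornology.IsBounded Γ) :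
    (zb w '' Γ).Finite := by
  obtain ⟨r, hr⟩ := hΓ.subset_closedBall 0
  obtain ⟨m, hm⟩ := exists_nat_gt (r / w)
  refine (((Finset.Icc (-(m:ℤ) - 1) (m:ℤ)) ×ˢ
    (Finset.Icc (-(m:ℤ) - 1) (m:ℤ)) : Finset Vtx).finite_toSet).subset ?_
  rintro q ⟨z, hz, rfl⟩
  have h1 := hr hz
  rw [Metric.mem_closedBall, dist_zero_right] at h1
  have hre := (Complex.abs_re_le_norm z).trans h1
  have him := (Complex.abs_im_le_norm z).trans h1
  have key : ∀ x : ℝ, |x| ≤ r → -(m:ℤ) - 1 ≤ ⌊x / w⌋ ∧ ⌊x / w⌋ ≤ (m:ℤ) := by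
    intro x hx
    have h2 := abs_le.mp hx
    have h3 : x / w < m := lt_of_le_of_lt (div_le_div_of_nonneg_right h2.2 hw.le) hm
    have h4 : -(m:ℝ) < x / w := by
      have : -(r / w) ≤ x / w := by
        rw [← neg_div]
        exact div_le_div_of_nonneg_right h2.1 hw.le
      linarith
    constructor
    · rw [Int.le_floor]
      push_cast
      linarith
    · have : ⌊x / w⌋ < (m:ℤ) + 1 := by
        rw [Int.floor_lt]
        push_cast
        linarith
      omega
  rw [Finset.mem_coe, mem_product, mem_Icc, mem_Icc]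
  exact ⟨key _ hre, key _ him⟩

theorem haus_le {f : C(unitInterval, ℂ)} {s t : unitInterval} {c : ℝ} (hc : 0 ≤ c)
    (h : ∀ᶠ ρ : ℝ in 𝓝[>] 0, ar ρ f s t ≤ c * ρ ^ (1/4 : ℝ)) :
    Measure.hausdorffMeasure (7/4 : ℝ) (f '' Set.Icc s t) ≤ ENNReal.ofReal (8 * c) := by
  have hb := im_bdd f s t
  set w : ℕ → ℝ := fun n => 1 / ((n : ℝ) + 1) with hw
  have hw0 : ∀ n, 0 < w n := fun n => by rw [hw]; positivity
  have hwt : Tendsto w atTop (𝓝 0) := tendsto_one_div_add_atTop_nhds_zero_nat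
  set A : ℕ → Finset Vtx := fun n => (zb_fin (hw0 n) hb).toFinset with hA
  have hmem : ∀ n, ∀ z ∈ f '' Set.Icc s t, zb (w n) z ∈ A n := by
    intro n z hz
    rw [hA, Set.Finite.mem_toFinset]
    exact ⟨z, hz, rfl⟩
  have hdiam : ∀ n, ∀ i : A n, Metric.ediam (Metric.closedBall (ctr 0 (w n) i) (w n)) ≤
      ENNReal.ofReal (2 * w n) := by
    intro n i
    refine Metric.ediam_le fun x hx y hy => ?_
    rw [edist_dist]
    refine ENNReal.ofReal_le_ofReal ?_
    rw [Metric.mem_closedBall] at hx hy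
    have := dist_triangle_right x y (ctr 0 (w n) i)
    linarith
  have h1 := Measure.hausdorffMeasure_le_liminf_sum (ι := fun n : ℕ => (A n : Type)) (7/4 : ℝ)
    (f '' Set.Icc s t) (l := atTop) (fun n => ENNReal.ofReal (2 * w n)) (by
      have := ENNReal.tendsto_ofReal (hwt.const_mul 2)
      rwa [mul_zero, ENNReal.ofReal_zero] at this)
    (fun n i => Metric.closedBall (ctr 0 (w n) i) (w n)) (Eventually.of_forall hdiam)
    (Eventually.of_forall fun n z hz => by
      rw [Set.mem_iUnion]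
      exact ⟨⟨zb (w n) z, hmem n z hz⟩, Metric.mem_closedBall.mpr (zb_dist (hw0 n) z)⟩)
  refine h1.trans ?_
  have hw2 : Tendsto (fun n => 2 * w n) atTop (𝓝[>] 0) := by
    refine tendsto_nhdsWithin_iff.mpr ⟨?_, Eventually.of_forall fun n => ?_⟩
    · have := hwt.const_mul 2
      rwa [mul_zero] at this
    · show 0 < 2 * w n
      have := hw0 n
      linarith
  have h2 : ∀ᶠ n in atTop, ∑ i : A n,
      Metric.ediam (Metric.closedBall (ctr 0 (w n) i) (w n)) ^ (7/4 : ℝ) ≤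
        ENNReal.ofReal (8 * c) := by
    filter_upwards [hw2.eventually h] with n hn
    have hwn := hw0 n
    have h3 : ∑ i : A n, Metric.ediam (Metric.closedBall (ctr 0 (w n) i) (w n)) ^ (7/4 : ℝ) ≤
        ∑ _i : A n, ENNReal.ofReal ((2 * w n) ^ (7/4 : ℝ)) := by
      refine sum_le_sum fun i _ => ?_
      rw [← ENNReal.ofReal_rpow_of_nonneg (by positivity) (by norm_num)]
      exact ENNReal.rpow_le_rpow (hdiam n i) (by norm_num)
    refine h3.trans ?_
    rw [sum_const, card_univ, Fintype.card_coe, nsmul_eq_mul]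
    rw [← ENNReal.ofReal_natCast, ← ENNReal.ofReal_mul (Nat.cast_nonneg _)]
    refine ENNReal.ofReal_le_ofReal ?_
    have h4 := vol_low (Γ := f '' Set.Icc s t) (δ := 0) hwn (le_refl _) (A n) hb (fun q hq => by
      rw [hA, Set.Finite.mem_toFinset] at hq
      obtain ⟨z, hz, rfl⟩ := hq
      exact ⟨z, hz, (zb_dist hwn z).trans (by linarith)⟩)
    have h5 : ((A n).card : ℝ) * (3 * (w n / 2) ^ 2) ≤ c * (2 * w n) ^ (1/4 : ℝ) := h4.trans hn
    have e1 : (2 * w n) ^ (2:ℝ) = (2 * w n) ^ 2 := Real.rpow_natCast _ 2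
    have e2 : (2 * w n) ^ (7/4 : ℝ) * (2 * w n) ^ (1/4 : ℝ) = (2 * w n) ^ 2 := by
      rw [← Real.rpow_add (by positivity), ← e1]
      norm_num
    have hp : 0 < (2 * w n) ^ (1/4 : ℝ) := by positivity
    have h6 : ((A n).card : ℝ) * (2 * w n) ^ (7/4 : ℝ) * (2 * w n) ^ (1/4 : ℝ) ≤
        8 * c * (2 * w n) ^ (1/4 : ℝ) := by
      rw [mul_assoc, e2]
      nlinarith [mul_nonneg hc hp.le]
    exact le_of_mul_le_mul_right h6 hp
  calc liminf (fun n => ∑ i : A n,
      Metric.ediam (Metric.closedBall (ctr 0 (w n) i) (w n)) ^ (7/4 : ℝ)) atTop ≤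
        liminf (fun _ : ℕ => ENNReal.ofReal (8 * c)) atTop := liminf_le_liminf h2
    _ = _ := liminf_const _

theorem haus_single (f : C(unitInterval, ℂ)) (s : unitInterval) :
    Measure.hausdorffMeasure (7/4 : ℝ) (f '' Set.Icc s s) = 0 := by
  rw [Set.Icc_self, Set.image_singleton]
  have := Measure.nullSingletonClass_hausdorff (X := ℂ) (d := 7/4) (by norm_num)
  exact measure_singleton _

/-- The Hausdorff measure of every piece is at most a multiple of the time. -/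
theorem haus_all {C Λ : ℝ} (hC : 0 < C) {p : X} (hp2 : 0 < p.2)
    (h : ∀ᶠ ρ : ℝ in 𝓝[>] 0, ∀ s t : unitInterval, (s:ℝ) + Λ * ρ ^ (3/4 : ℝ) ≤ t →
      ar ρ p.1 s t ≤ C * (p.2 * ((t:ℝ) - s)) * ρ ^ (1/4 : ℝ)) (s t : unitInterval) (hst : s ≤ t) :
    Measure.hausdorffMeasure (7/4 : ℝ) (p.1 '' Set.Icc s t) ≤
      ENNReal.ofReal (8 * C * (p.2 * ((t:ℝ) - s))) := by
  rcases eq_or_lt_of_le hst with rfl | hlt
  · rw [haus_single]
    exact zero_le
  · have hlt' : (s:ℝ) < t := hlt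
    have h1 := haus_le (f := p.1) (s := s) (t := t) (c := C * (p.2 * ((t:ℝ) - s)))
      (mul_nonneg hC.le (mul_nonneg hp2.le (by linarith))) (by
        have h2 : Tendsto (fun ρ : ℝ => (s:ℝ) + Λ * ρ ^ (3/4 : ℝ)) (𝓝[>] 0) (𝓝 s) := by
          have h3 : Tendsto (fun ρ : ℝ => ρ ^ (3/4 : ℝ)) (𝓝[>] 0) (𝓝 0) := by
            have := (Real.continuousAt_rpow_const 0 (3/4 : ℝ) (Or.inr (by norm_num))).tendsto
            rw [Real.zero_rpow (by norm_num)] at this
            exact this.mono_left nhdsWithin_le_nhds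
          have h4 := (h3.const_mul Λ).const_add (s:ℝ)
          rwa [mul_zero, add_zero] at h4
        filter_upwards [h, h2.eventually (ge_mem_nhds hlt')] with ρ h5 h6
        exact h5 s t h6)
    rwa [← mul_assoc] at h1

end Y994.MC
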