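import Pool.Agent.Y994.MC.Mesh
import Pool.Agent.H984R4.NP.Limit

/-!
Passage to the weak limits.
-/

set_option autoImplicit false

namespace Y994.MC

open H974 Finset H342P H984P H984N MeasureTheory Filter Topology

theorem thick_sub {f g : C(unitInterval, ℂ)} {η r r' : ℝ} (h : dist f g ≤ η) (hr : r + η ≤ r')
    (s t : unitInterval) : Metric.thickening r (g '' Set.Icc s t) ⊆
      Metric.thickening r' (f '' Set.Icc s t) := by
  intro x hx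
  rw [Metric.mem_thickening_iff] at hx ⊢
  obtain ⟨z, ⟨u, hu, rfl⟩, hd⟩ := hx
  refine ⟨f u, ⟨u, hu, rfl⟩, ?_⟩
  have h1 := ContinuousMap.dist_apply_le_dist (f := f) (g := g) u
  have h2 := dist_triangle x (g u) (f u)
  rw [dist_comm (g u) (f u)] at h2
  linarith

theorem ar_mono {f g : C(unitInterval, ℂ)} {η r r' : ℝ} (h : dist f g ≤ η) (hr : r + η ≤ r')
    (s t : unitInterval) : ar r g s t ≤ ar r' f s t :=
  measureReal_mono (thick_sub h hr s t) (vol_fin (im_bdd f s t) _)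

theorem ar_mono' {f : C(unitInterval, ℂ)} {r r' : ℝ} (hr : r ≤ r')
    (s t : unitInterval) : ar r f s t ≤ ar r' f s t :=
  ar_mono (f := f) (g := f) (η := 0) (by rw [dist_self]) (by linarith) s t

theorem EU_closure {c e r r' : ℝ} (hc : 0 ≤ c) (hr : r < r') : closure (EU c e r) ⊆ EU c e r' := by
  intro p hp s t hst
  rw [Metric.mem_closure_iff] at hp
  have hst' : (s:ℝ) ≤ t := hst
  refine le_of_forall_pos_le_add fun ε hε => ?_
  obtain ⟨q, hq, hd⟩ := hp (min ε (r' - r)) (lt_min hε (by linarith))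
  rw [Prod.dist_eq, max_lt_iff] at hd
  obtain ⟨d1, d2⟩ := hd
  have h1 := hq s t hst
  have h2 : ar r q.1 s t ≤ ar r' p.1 s t :=
    ar_mono (d1.le.trans (min_le_right _ _)) (by linarith) s t
  have h3 : p.2 - q.2 ≤ ε := by
    rw [Real.dist_eq] at d2
    exact (le_abs_self _).trans (d2.le.trans (min_le_left _ _))
  have h4 : ((t:ℝ) - s) * p.2 ≤ ((t:ℝ) - s) * q.2 + ε := by
    have h5 : (t:ℝ) - s ≤ 1 := by linarith [t.2.2, s.2.1]
    have h6 : 0 ≤ (t:ℝ) - s := by linarith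
    nlinarith
  have h7 := mul_le_mul_of_nonneg_left h2 hc
  linarith

theorem EL_closure {c e r r' : ℝ} (hc : 0 ≤ c) (hr : r' < r) : closure (EL c e r) ⊆ EL c e r' := by
  intro p hp s t hst
  rw [Metric.mem_closure_iff] at hp
  have hst' : (s:ℝ) ≤ t := hst
  refine le_of_forall_pos_le_add fun ε hε => ?_
  obtain ⟨q, hq, hd⟩ := hp (min (ε / (c + 1)) (r - r')) (lt_min (by positivity) (by linarith))
  rw [Prod.dist_eq, max_lt_iff] at hd
  obtain ⟨d1, d2⟩ := hd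
  have h1 := hq s t hst
  have h2 : ar r' p.1 s t ≤ ar r q.1 s t :=
    ar_mono (η := r - r') (by rw [dist_comm]; exact d1.le.trans (min_le_right _ _)) (by linarith) s t
  have h3 : q.2 - p.2 ≤ ε / (c + 1) := by
    rw [Real.dist_eq, abs_sub_comm] at d2
    exact (le_abs_self _).trans (d2.le.trans (min_le_left _ _))
  have h5 : (t:ℝ) - s ≤ 1 := by linarith [t.2.2, s.2.1]
  have h6 : 0 ≤ (t:ℝ) - s := by linarith
  have h4 : ((t:ℝ) - s) * q.2 ≤ ((t:ℝ) - s) * p.2 + ε / (c + 1) := by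
    have h8 : 0 < ε / (c + 1) := by positivity
    nlinarith
  have h7 := mul_le_mul_of_nonneg_left h4 hc
  have h9 : c * (ε / (c + 1)) ≤ ε := by
    rw [mul_div_assoc', div_le_iff₀ (by positivity)]
    nlinarith
  linarith

/-- The comparisons hold almost surely at all small scales. -/
theorem lim_ae {K : ℝ} (hK : 0 < K) {R : Rect} {B : ℝ} (hB : 0 < B)
    (h : ∀ j : ℕ, ∃ δ1 : ℝ, 0 < δ1 ∧
      ∀ δ : ℝ, 0 < δ → δ ≤ δ1 → R.prob δ (fun F => (R.curve δ F, R.time δ F) ∉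
        EU (K * ((1/2:ℝ) ^ j) ^ (-(1/4) : ℝ)) (K * (j + 1) * ((1/2:ℝ) ^ j) ^ (7/4 : ℝ))
          (2 * (1/2) ^ j) ∩
        EL (484 * K * ((1/2:ℝ) ^ j) ^ (1/4 : ℝ)) (B * (1/2) ^ j) (8 * (1/2) ^ j)) ≤
          B * (1/4) ^ j)
    {δ : ℕ → ℝ} (hδ : ∀ i, 0 < δ i) (hlim : Tendsto δ atTop (𝓝 0))
    {μ : ProbabilityMeasure X} (hμ : Tendsto (fun i => R.law (δ i)) atTop (𝓝 μ)) :
    ∀ᵐ p ∂(μ : Measure X), ∀ᶠ j : ℕ in atTop,
      p ∈ EU (K * ((1/2:ℝ) ^ j) ^ (-(1/4) : ℝ)) (K * (j + 1) * ((1/2:ℝ) ^ j) ^ (7/4 : ℝ))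
          (3 * (1/2) ^ j) ∧
      p ∈ EL (484 * K * ((1/2:ℝ) ^ j) ^ (1/4 : ℝ)) (B * (1/2) ^ j) (7 * (1/2) ^ j) := by
  set G : ℕ → Set X := fun j => EU (K * ((1/2:ℝ) ^ j) ^ (-(1/4) : ℝ))
    (K * (j + 1) * ((1/2:ℝ) ^ j) ^ (7/4 : ℝ)) (2 * (1/2) ^ j) ∩
      EL (484 * K * ((1/2:ℝ) ^ j) ^ (1/4 : ℝ)) (B * (1/2) ^ j) (8 * (1/2) ^ j) with hG
  have h1 : ∀ j, (μ : Measure X) (closure (G j))ᶜ ≤ ENNReal.ofReal (B * (1/4) ^ j) := by
    intro j
    obtain ⟨δ1, hδ1, h2⟩ := h j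
    refine limit_closed R hδ hlim hμ isClosed_closure (by positivity) hδ1 fun d hd hd1 => ?_
    refine le_trans ?_ (h2 d hd hd1)
    unfold Rect.prob
    exact Pr_mono two_ok fun F _ hn hn2 => hn (subset_closure hn2)
  have hsum : ∑' j, (μ : Measure X) (closure (G j))ᶜ ≠ ⊤ := by
    refine (lt_of_le_of_lt (ENNReal.tsum_le_tsum h1) ?_).ne
    rw [← ENNReal.ofReal_tsum_of_nonneg (fun j => by positivity)
      ((summable_geometric_of_lt_one (by norm_num) (by norm_num)).mul_left B)]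
    exact ENNReal.ofReal_lt_top
  have h3 := ae_eventually_notMem hsum
  filter_upwards [h3] with p hp
  filter_upwards [hp] with j hj
  have hj' : p ∈ closure (G j) := by
    by_contra hcon
    exact hj hcon
  have hx : (0:ℝ) < (1/2) ^ j := by positivity
  constructor
  · exact EU_closure (by positivity) (by linarith) (closure_mono Set.inter_subset_left hj')
  · exact EL_closure (by positivity) (by linarith) (closure_mono Set.inter_subset_right hj')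

/-- The area of the neighbourhoods of all not too short pieces is comparable with the time. -/
theorem all_radii {K B : ℝ} (hK : 0 < K) (hB : 0 < B) {p : X} (hp2 : 0 < p.2)
    (h : ∀ᶠ j : ℕ in atTop,
      p ∈ EU (K * ((1/2:ℝ) ^ j) ^ (-(1/4) : ℝ)) (K * (j + 1) * ((1/2:ℝ) ^ j) ^ (7/4 : ℝ))
          (3 * (1/2) ^ j) ∧
      p ∈ EL (484 * K * ((1/2:ℝ) ^ j) ^ (1/4 : ℝ)) (B * (1/2) ^ j) (7 * (1/2) ^ j)) :
    ∃ Λ : ℝ, ∀ᶠ ρ : ℝ in 𝓝[>] 0, ∀ s t : unitInterval, (s:ℝ) + Λ * ρ ^ (3/4 : ℝ) ≤ t →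
      1 / (4 * K) * (p.2 * ((t:ℝ) - s)) * ρ ^ (1/4 : ℝ) ≤ ar ρ p.1 s t ∧
      ar ρ p.1 s t ≤ (484 * K + 1) * (p.2 * ((t:ℝ) - s)) * ρ ^ (1/4 : ℝ) := by
  have hlin : ∀ᶠ j : ℕ in atTop, 2 * K * (((j:ℝ) + 1) * (1/2) ^ j) ≤ B := by
    have t1 := tendsto_self_mul_const_pow_of_lt_one (r := (1/2:ℝ)) (by norm_num) (by norm_num)
    have t2 := tendsto_pow_atTop_nhds_zero_of_lt_one (r := (1/2:ℝ)) (by norm_num) (by norm_num)
    have t3 := (t1.add t2).const_mul (2 * K)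
    rw [add_zero, mul_zero] at t3
    filter_upwards [t3.eventually (ge_mem_nhds hB)] with j hj
    refine le_trans (le_of_eq ?_) hj
    ring
  obtain ⟨J, hJ⟩ := eventually_atTop.mp (h.and hlin)
  refine ⟨B / p.2, ?_⟩
  have hev : ∀ᶠ ρ : ℝ in 𝓝[>] 0, 0 < ρ ∧ ρ < 3 * (1/2) ^ J :=
    Filter.Eventually.and self_mem_nhdsWithin
      (nhdsWithin_le_nhds (gt_mem_nhds (by positivity)))
  filter_upwards [hev] with ρ hρ s t hst
  obtain ⟨hρ0, hρ1⟩ := hρ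
  have hJ1 : ((1:ℝ)/2) ^ J ≤ 1 := pow_le_one₀ (by norm_num) (by norm_num)
  obtain ⟨n, hn1, hn2⟩ := exists_nat_pow_near_of_lt_one (x := ρ / 3) (y := (1/2:ℝ))
    (by positivity) (by linarith) (by norm_num) (by norm_num)
  have hnJ : J ≤ n + 1 := by
    by_contra hcon
    push Not at hcon
    have h5 : ((1:ℝ)/2) ^ J ≤ (1/2) ^ (n + 1) :=
      pow_le_pow_of_le_one (by norm_num) (by norm_num) hcon.le
    linarith
  obtain ⟨⟨hU, hLw⟩, hl⟩ := hJ (n + 1) hnJ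
  have e2 : ((1:ℝ)/2) ^ n = 2 * (1/2) ^ (n + 1) := by
    rw [pow_succ]
    ring
  rw [e2] at hn2
  obtain ⟨x, hx⟩ : ∃ x : ℝ, x = (1/2) ^ (n + 1) := ⟨_, rfl⟩
  rw [← hx] at hU hLw hl hn1 hn2
  have hx0 : 0 < x := by rw [hx]; positivity
  obtain ⟨m, hm⟩ : ∃ m : ℝ, m = ((n + 1 : ℕ) : ℝ) + 1 := ⟨_, rfl⟩
  rw [← hm] at hU hl
  have hρx : 0 ≤ B / p.2 * ρ ^ (3/4 : ℝ) := by positivity
  have hst' : s ≤ t := by
    show (s:ℝ) ≤ t
    linarith
  have g1 := hU s t hst'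
  have g2 := hLw s t hst'
  have m1 : ar (3 * x) p.1 s t ≤ ar ρ p.1 s t := ar_mono' (by linarith) s t
  have m2 : ar ρ p.1 s t ≤ ar (7 * x) p.1 s t := ar_mono' (by linarith) s t
  obtain ⟨T, hT⟩ : ∃ T : ℝ, T = ((t:ℝ) - s) * p.2 := ⟨_, rfl⟩
  rw [← hT] at g1 g2
  have eT : p.2 * ((t:ℝ) - s) = T := by rw [hT]; ring
  rw [eT]
  -- the length of the piece
  have hT1 : B * x ^ (3/4 : ℝ) ≤ T := by
    have h1 : x ^ (3/4 : ℝ) ≤ ρ ^ (3/4 : ℝ) :=
      Real.rpow_le_rpow hx0.le (by linarith) (by norm_num)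
    have h2 : B / p.2 * ρ ^ (3/4 : ℝ) ≤ (t:ℝ) - s := by linarith
    have h3 : B * ρ ^ (3/4 : ℝ) ≤ T := by
      rw [hT]
      have h4 := mul_le_mul_of_nonneg_right h2 hp2.le
      have e : B / p.2 * ρ ^ (3/4 : ℝ) * p.2 = B * ρ ^ (3/4 : ℝ) := by
        field_simp
      rw [e] at h4
      exact h4
    have h5 := mul_le_mul_of_nonneg_left h1 hB.le
    linarith
  have hx34 : 0 < x ^ (3/4 : ℝ) := Real.rpow_pos_of_pos hx0 _
  have hx14 : 0 < x ^ (1/4 : ℝ) := Real.rpow_pos_of_pos hx0 _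
  have hxn : 0 < x ^ (-(1/4) : ℝ) := Real.rpow_pos_of_pos hx0 _
  have hT0 : 0 < T := lt_of_lt_of_le (by positivity) hT1
  have f1 : x ^ (7/4 : ℝ) = x * x ^ (3/4 : ℝ) := by
    nth_rewrite 2 [← Real.rpow_one x]
    rw [← Real.rpow_add hx0]
    norm_num
  have f2 : x = x ^ (3/4 : ℝ) * x ^ (1/4 : ℝ) := by
    rw [← Real.rpow_add hx0]
    norm_num
  have f3 : x ^ (1/4 : ℝ) * x ^ (-(1/4) : ℝ) = 1 := by
    rw [← Real.rpow_add hx0]
    norm_num
  constructor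
  · have h1 : K * m * x ^ (7/4 : ℝ) ≤ T / 2 := by
      rw [f1]
      have h2 := mul_le_mul_of_nonneg_right hl hx34.le
      have e : 2 * K * (m * x) * x ^ (3/4 : ℝ) = 2 * (K * m * (x * x ^ (3/4 : ℝ))) := by ring
      rw [e] at h2
      linarith
    have h2 : T / 2 ≤ K * x ^ (-(1/4) : ℝ) * ar ρ p.1 s t := by
      have h3 := mul_le_mul_of_nonneg_left m1 (mul_nonneg hK.le hxn.le)
      linarith
    have h3 : T / 2 * x ^ (1/4 : ℝ) ≤ K * ar ρ p.1 s t := by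
      have h4 := mul_le_mul_of_nonneg_right h2 hx14.le
      have e : K * x ^ (-(1/4) : ℝ) * ar ρ p.1 s t * x ^ (1/4 : ℝ) =
          K * ar ρ p.1 s t * (x ^ (1/4 : ℝ) * x ^ (-(1/4) : ℝ)) := by ring
      rw [e, f3, mul_one] at h4
      exact h4
    have h5 : ρ ^ (1/4 : ℝ) ≤ 2 * x ^ (1/4 : ℝ) := by
      have h6 : ρ ^ (1/4 : ℝ) ≤ (16 * x) ^ (1/4 : ℝ) :=
        Real.rpow_le_rpow hρ0.le (by linarith) (by norm_num)
      have e : (16 * x) ^ (1/4 : ℝ) = 2 * x ^ (1/4 : ℝ) := by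
        rw [Real.mul_rpow (by norm_num) hx0.le]
        congr 1
        rw [show (16:ℝ) = 2 ^ (4:ℝ) by norm_num, ← Real.rpow_mul (by norm_num)]
        norm_num
      rw [e] at h6
      exact h6
    have h7 : T * ρ ^ (1/4 : ℝ) ≤ 4 * K * ar ρ p.1 s t := by
      have := mul_le_mul_of_nonneg_left h5 hT0.le
      linarith
    have e : 1 / (4 * K) * T * ρ ^ (1/4 : ℝ) = T * ρ ^ (1/4 : ℝ) / (4 * K) := by
      field_simp
    rw [e, div_le_iff₀ (by positivity)]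
    linarith
  · have h1 : B * x ≤ T * x ^ (1/4 : ℝ) := by
      have h2 := mul_le_mul_of_nonneg_right hT1 hx14.le
      have e : B * x ^ (3/4 : ℝ) * x ^ (1/4 : ℝ) = B * x := by
        rw [mul_assoc, ← f2]
      rw [e] at h2
      exact h2
    have h2 : x ^ (1/4 : ℝ) ≤ ρ ^ (1/4 : ℝ) :=
      Real.rpow_le_rpow hx0.le (by linarith) (by norm_num)
    have h3 : (484 * K + 1) * T * x ^ (1/4 : ℝ) ≤ (484 * K + 1) * T * ρ ^ (1/4 : ℝ) :=
      mul_le_mul_of_nonneg_left h2 (by positivity)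
    linarith

end Y994.MC
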