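import Pool.Agent.Y994.MC.Scale
import Pool.Agent.H984R4.NP.PL
import Pool.Agent.H984R4.NP.ModelLem

/-!
The area of a neighbourhood of a piece of the curve and the number of visited blocks.
-/

set_option autoImplicit false

namespace Y994.MC

open H974 Finset H342P H984P H984N MeasureTheory

/-- centre of a block -/
noncomputable def ctr (δ w : ℝ) (q : Vtx) : ℂ := ⟨w * (q.1 + 1/2), w * (q.2 + 1/2) + δ⟩

theorem ctr_far {δ w : ℝ} (hw : 0 < w) {q r : Vtx} (h : q ≠ r) :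
    w ≤ dist (ctr δ w q) (ctr δ w r) := by
  have key : ∀ i k : ℤ, i ≠ k → w ≤ |w * ((i:ℝ) + 1/2) - w * ((k:ℝ) + 1/2)| := by
    intro i k hik
    have e : w * ((i:ℝ) + 1/2) - w * ((k:ℝ) + 1/2) = w * ((i - k : ℤ) : ℝ) := by
      push_cast
      ring
    rw [e, abs_mul, abs_of_pos hw]
    have h1 : (1:ℝ) ≤ |((i - k : ℤ) : ℝ)| := by
      rw [← Int.cast_abs]
      exact_mod_cast Int.one_le_abs (sub_ne_zero.mpr hik)
    nlinarith
  obtain ⟨i, j⟩ := q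
  obtain ⟨k, l⟩ := r
  by_cases h1 : i = k
  · have h2 : j ≠ l := fun h2 => h (by rw [h1, h2])
    refine le_trans ?_ (ML.le_dist_im _ _)
    have e : (ctr δ w (i, j)).im - (ctr δ w (k, l)).im =
        w * ((j:ℝ) + 1/2) - w * ((l:ℝ) + 1/2) := by
      unfold ctr
      simp only
      ring
    rw [e]
    exact key j l h2
  · refine le_trans ?_ (ML.le_dist_re _ _)
    exact key i k h1

theorem pos_ctr {δ : ℝ} (hδ : 0 < δ) {W : ℕ} (hW : 1 ≤ W) (σ : St) :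
    dist (pos δ σ) (ctr δ (δ * W) (bk W σ.1)) ≤ 3/2 * (δ * W) := by
  have hW' : (0 : ℤ) < W := by exact_mod_cast hW
  have hW1 : (1 : ℝ) ≤ W := by exact_mod_cast hW
  have key : ∀ x : ℤ, ∀ o : ℝ, |o| ≤ 1/4 →
      |δ * ((x:ℝ) + o) - δ * W * (((x / (W:ℤ) : ℤ) : ℝ) + 1/2)| ≤ 3/4 * (δ * W) := by
    intro x o ho
    have a1 : (W : ℤ) * (x / W) ≤ x := Int.mul_ediv_self_le hW'.ne'
    have a2 : x < (W : ℤ) * (x / W) + W := Int.lt_mul_ediv_self_add hW'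
    have b1 : (W : ℝ) * ((x / (W:ℤ) : ℤ) : ℝ) ≤ (x:ℝ) := by exact_mod_cast a1
    have b2 : (x:ℝ) < (W : ℝ) * ((x / (W:ℤ) : ℤ) : ℝ) + W := by exact_mod_cast a2
    have e : δ * ((x:ℝ) + o) - δ * W * (((x / (W:ℤ) : ℤ) : ℝ) + 1/2) =
        δ * ((x:ℝ) - (W : ℝ) * ((x / (W:ℤ) : ℤ) : ℝ) - W / 2 + o) := by ring
    rw [e, abs_mul, abs_of_pos hδ]
    have h1 : |(x:ℝ) - (W : ℝ) * ((x / (W:ℤ) : ℤ) : ℝ) - W / 2 + o| ≤ 3/4 * W := by
      have := abs_le.mp ho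
      rw [abs_le]
      constructor <;> linarith [this.1, this.2]
    calc δ * |(x:ℝ) - (W : ℝ) * ((x / (W:ℤ) : ℤ) : ℝ) - W / 2 + o| ≤ δ * (3/4 * W) :=
          mul_le_mul_of_nonneg_left h1 hδ.le
      _ = 3/4 * (δ * W) := by ring
  refine (ML.dist_le_of (a := 3/4 * (δ * W)) (b := 3/4 * (δ * W)) ?_ ?_).trans (by linarith)
  · rw [ML.pos_re]
    exact key σ.1.1 _ (ML.qx_le _)
  · rw [ML.pos_im]
    have h := key σ.1.2 _ (ML.qy_le σ.2)
    have e : δ * ((σ.1.2:ℝ) + 1 + ML.qy σ.2) - (ctr δ (δ * W) (bk W σ.1)).im =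
        δ * ((σ.1.2:ℝ) + ML.qy σ.2) - δ * W * (((σ.1.2 / (W:ℤ) : ℤ) : ℝ) + 1/2) := by
      unfold ctr bk
      simp only
      ring
    rw [e]
    exact h

theorem vol_ball (z : ℂ) {r : ℝ} (hr : 0 ≤ r) : volume.real (Metric.ball z r) = r ^ 2 * Real.pi := by
  unfold Measure.real
  rw [Complex.volume_ball, ENNReal.toReal_mul, ENNReal.toReal_pow, ENNReal.toReal_ofReal hr]
  rfl

theorem vol_fin {Γ : Set ℂ} (hΓ : Bornology.IsBounded Γ) (r : ℝ) :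
    volume (Metric.thickening r Γ) ≠ ⊤ := (hΓ.thickening).measure_lt_top.ne

theorem vol_low {Γ : Set ℂ} {δ w r : ℝ} (hw : 0 < w) (hr : 2 * w ≤ r) (A : Finset Vtx)
    (hΓ : Bornology.IsBounded Γ)
    (h : ∀ q ∈ A, ∃ z ∈ Γ, dist z (ctr δ w q) ≤ 3/2 * w) :
    (A.card : ℝ) * (3 * (w/2) ^ 2) ≤ volume.real (Metric.thickening r Γ) := by
  have h1 : volume.real (⋃ q ∈ A, Metric.ball (ctr δ w q) (w/2)) =
      ∑ q ∈ A, volume.real (Metric.ball (ctr δ w q) (w/2)) := by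
    refine measureReal_biUnion_finset (fun q _ r _ hqr => ?_) (fun q _ => measurableSet_ball)
      (fun q _ => ?_)
    · exact Metric.ball_disjoint_ball (by
        have := ctr_far (δ := δ) hw hqr
        linarith)
    · exact (Metric.isBounded_ball.measure_lt_top).ne
  have h2 : ⋃ q ∈ A, Metric.ball (ctr δ w q) (w/2) ⊆ Metric.thickening r Γ := by
    intro x hx
    rw [Set.mem_iUnion₂] at hx
    obtain ⟨q, hq, hx⟩ := hx
    obtain ⟨z, hz, hd⟩ := h q hq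
    rw [Metric.mem_thickening_iff]
    refine ⟨z, hz, ?_⟩
    rw [Metric.mem_ball] at hx
    have := dist_triangle x (ctr δ w q) z
    rw [dist_comm (ctr δ w q) z] at this
    linarith
  have h3 := measureReal_mono h2 (vol_fin hΓ r)
  rw [h1] at h3
  refine le_trans ?_ h3
  have h4 : ∀ q ∈ A, 3 * (w/2) ^ 2 ≤ volume.real (Metric.ball (ctr δ w q) (w/2)) := by
    intro q _
    rw [vol_ball _ (by positivity)]
    have := Real.pi_gt_three
    nlinarith [sq_nonneg (w/2)]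
  calc (A.card : ℝ) * (3 * (w/2) ^ 2) = ∑ q ∈ A, (3 * (w/2) ^ 2) := by
        rw [sum_const, nsmul_eq_mul]
    _ ≤ _ := sum_le_sum h4

theorem vol_up {Γ : Set ℂ} {δ w r : ℝ} (hw : 0 < w) (hr : 0 ≤ r) (A : Finset Vtx)
    (h : ∀ z ∈ Γ, ∃ q ∈ A, dist z (ctr δ w q) ≤ 3 * w) :
    volume.real (Metric.thickening r Γ) ≤ (A.card : ℝ) * (4 * (r + 3 * w) ^ 2) := by
  have h2 : Metric.thickening r Γ ⊆ ⋃ q ∈ A, Metric.ball (ctr δ w q) (r + 3 * w) := by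
    intro x hx
    rw [Metric.mem_thickening_iff] at hx
    obtain ⟨z, hz, hd⟩ := hx
    obtain ⟨q, hq, hd2⟩ := h z hz
    rw [Set.mem_iUnion₂]
    refine ⟨q, hq, ?_⟩
    rw [Metric.mem_ball]
    have := dist_triangle x z (ctr δ w q)
    linarith
  have h3 : volume.real (Metric.thickening r Γ) ≤
      volume.real (⋃ q ∈ A, Metric.ball (ctr δ w q) (r + 3 * w)) := by
    refine measureReal_mono h2 ?_
    refine (lt_of_le_of_lt (measure_biUnion_finset_le _ _) ?_).ne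
    rw [ENNReal.sum_lt_top]
    intro q _
    exact Metric.isBounded_ball.measure_lt_top
  refine h3.trans ?_
  refine (measureReal_biUnion_finset_le _ _).trans ?_
  have h4 : ∀ q ∈ A, volume.real (Metric.ball (ctr δ w q) (r + 3 * w)) ≤ 4 * (r + 3 * w) ^ 2 := by
    intro q _
    rw [vol_ball _ (by positivity)]
    have := Real.pi_lt_four
    nlinarith [sq_nonneg (r + 3 * w)]
  refine (sum_le_sum h4).trans ?_
  rw [sum_const, nsmul_eq_mul]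

theorem node_in {N : ℕ} (hN : 0 < N) {p : ℕ → ℂ} {s t : unitInterval} {i : ℕ}
    (h1 : (s:ℝ) * N ≤ i) (h2 : (i:ℝ) ≤ t * N) : p i ∈ pl N p '' Set.Icc s t := by
  have hN' : (0:ℝ) < N := by exact_mod_cast hN
  have hi1 : (i:ℝ) / N ≤ t := by
    rw [div_le_iff₀ hN']
    exact h2
  have hi0 : (s:ℝ) ≤ (i:ℝ) / N := by
    rw [le_div_iff₀ hN']
    exact h1
  refine ⟨⟨(i:ℝ) / N, s.2.1.trans hi0, hi1.trans t.2.2⟩, ⟨hi0, hi1⟩, ?_⟩
  have e : (i:ℝ) / N * N = i := div_mul_cancel₀ _ hN'.ne'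
  rcases Nat.lt_or_ge i N with h | h
  · rw [pl_seg h (by simp only [e]; exact le_refl _) (by simp only [e]; linarith)]
    simp only [e, sub_self, Complex.ofReal_zero, zero_mul, add_zero]
  · have h3 : (i:ℝ) ≤ N := h2.trans (by nlinarith [t.2.2])
    have h4 : i = N := le_antisymm (by exact_mod_cast h3) h
    subst h4
    have h5 : (⟨(i:ℝ) / i, s.2.1.trans hi0, hi1.trans t.2.2⟩ : unitInterval) = 1 :=
      Subtype.ext (div_self hN'.ne')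
    rw [h5, pl_one]

theorem near_node {N : ℕ} (hN : 0 < N) {p : ℕ → ℂ} {s t u : unitInterval} (hsu : s ≤ u)
    (hut : u ≤ t) {η : ℝ} (hη : 0 ≤ η) (hst : ∀ k < N, dist (p k) (p (k + 1)) ≤ η) :
    ∃ i : ℕ, ⌊(s:ℝ) * N⌋₊ ≤ i ∧ i ≤ ⌊(t:ℝ) * N⌋₊ ∧ dist (pl N p u) (p i) ≤ η := by
  have hN' : (0:ℝ) < N := by exact_mod_cast hN
  have hsu' : (s:ℝ) ≤ u := hsu
  have hut' : (u:ℝ) ≤ t := hut
  have hu0 : 0 ≤ (u:ℝ) * N := mul_nonneg u.2.1 hN'.le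
  refine ⟨⌊(u:ℝ) * N⌋₊, Nat.floor_mono (mul_le_mul_of_nonneg_right hsu' hN'.le),
    Nat.floor_mono (mul_le_mul_of_nonneg_right hut' hN'.le), ?_⟩
  have f1 := Nat.floor_le hu0
  have f2 := Nat.lt_floor_add_one ((u:ℝ) * N)
  rcases Nat.lt_or_ge ⌊(u:ℝ) * N⌋₊ N with h | h
  · rw [pl_seg h f1 f2.le, dist_eq_norm]
    have e : p ⌊(u:ℝ) * N⌋₊ + (((u : ℝ) * N - (⌊(u:ℝ) * N⌋₊ : ℝ) : ℝ) : ℂ) *
        (p (⌊(u:ℝ) * N⌋₊ + 1) - p ⌊(u:ℝ) * N⌋₊) - p ⌊(u:ℝ) * N⌋₊ =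
        (((u : ℝ) * N - (⌊(u:ℝ) * N⌋₊ : ℝ) : ℝ) : ℂ) *
          (p (⌊(u:ℝ) * N⌋₊ + 1) - p ⌊(u:ℝ) * N⌋₊) := by ring
    rw [e, norm_mul, Complex.norm_real, Real.norm_eq_abs, abs_of_nonneg (by linarith)]
    have h3 := hst _ h
    rw [dist_comm, dist_eq_norm] at h3
    have h4 := norm_nonneg (p (⌊(u:ℝ) * N⌋₊ + 1) - p ⌊(u:ℝ) * N⌋₊)
    nlinarith
  · have h5 : (N:ℝ) ≤ (u:ℝ) * N := le_trans (by exact_mod_cast h) f1
    have h6 : u = 1 := by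
      apply Subtype.ext
      have := u.2.2
      show (u:ℝ) = 1
      nlinarith
    have h7 : ⌊(u:ℝ) * N⌋₊ = N := by
      rw [h6]
      simp
    rw [h7, h6, pl_one, dist_self]
    exact hη

theorem im_bdd (f : C(unitInterval, ℂ)) (s t : unitInterval) :
    Bornology.IsBounded (f '' Set.Icc s t) :=
  (isCompact_Icc.image f.continuous).isBounded

theorem len_pos {D : Dm} (hD : D.Ok) {F : Finset Edg} (hF : F ⊆ D.edges) : 0 < D.len F := by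
  rcases Nat.eq_zero_or_pos (D.len F) with h | h
  · exfalso
    have := walk_len hD hF
    rw [h, walk_zero] at this
    unfold Dm.start Dm.stop at this
    simp at this
  · exact h

theorem rpow_mul_74 {δ : ℝ} (hδ : 0 < δ) (W : ℕ) :
    (δ * W) ^ (7/4 : ℝ) = δ ^ (7/4 : ℝ) * (W:ℝ) ^ (7/4 : ℝ) :=
  Real.mul_rpow hδ.le (Nat.cast_nonneg _)

theorem area_time {D : Dm} (hD : D.Ok) {F : Finset Edg} (hF : F ⊆ D.edges) {δ : ℝ} (hδ : 0 < δ)
    {W : ℕ} (hW : 1 ≤ W) {K : ℝ} (hK : 0 < K) {N0 : ℕ} (hG : Good D W K N0 F)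
    {s t : unitInterval} {r : ℝ} (hr : 2 * (δ * W) ≤ r) :
    ((t:ℝ) - s) * (δ ^ (7/4 : ℝ) * D.len F) ≤
      (δ * W) ^ (7/4 : ℝ) * (K * (volume.real (Metric.thickening r
        (pl (D.len F) (fun k => pos δ (D.walk F k)) '' Set.Icc s t)) / (3 * (δ * W / 2) ^ 2) +
          N0)) + δ ^ (7/4 : ℝ) := by
  have hN := len_pos hD hF
  set N := D.len F with hNdef
  set p : ℕ → ℂ := fun k => pos δ (D.walk F k) with hp
  have hN' : (0:ℝ) < N := by exact_mod_cast hN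
  have hWr : (0:ℝ) < W := by exact_mod_cast hW
  have hw : 0 < δ * W := by positivity
  have hδp : 0 < δ ^ (7/4 : ℝ) := Real.rpow_pos_of_pos hδ _
  have hwp : 0 < (δ * W) ^ (7/4 : ℝ) := Real.rpow_pos_of_pos hw _
  have hv : 0 ≤ volume.real (Metric.thickening r (pl N p '' Set.Icc s t)) := measureReal_nonneg
  have hs0 : 0 ≤ (s:ℝ) * N := mul_nonneg s.2.1 hN'.le
  have ht0 : 0 ≤ (t:ℝ) * N := mul_nonneg t.2.1 hN'.le
  have ht1 : (t:ℝ) * N ≤ N := by nlinarith [t.2.2]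
  have c1 := Nat.le_ceil ((s:ℝ) * N)
  have c2 := Nat.ceil_lt_add_one hs0
  have f1 := Nat.floor_le ht0
  have f2 := Nat.lt_floor_add_one ((t:ℝ) * N)
  rcases Nat.lt_or_ge ⌊(t:ℝ) * N⌋₊ ⌈(s:ℝ) * N⌉₊ with h | h
  · have h1 : ((⌊(t:ℝ) * N⌋₊ : ℕ) : ℝ) + 1 ≤ (⌈(s:ℝ) * N⌉₊ : ℝ) := by exact_mod_cast h
    have h2 : ((t:ℝ) - s) * N ≤ 1 := by nlinarith
    have h3 : ((t:ℝ) - s) * (δ ^ (7/4 : ℝ) * N) ≤ δ ^ (7/4 : ℝ) := by nlinarith
    have h4 : 0 ≤ (δ * W) ^ (7/4 : ℝ) * (K * (volume.real (Metric.thickening r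
        (pl N p '' Set.Icc s t)) / (3 * (δ * W / 2) ^ 2) + N0)) := by positivity
    linarith
  · set k := ⌈(s:ℝ) * N⌉₊ with hk
    set l := ⌊(t:ℝ) * N⌋₊ with hl
    have hlN : l ≤ N := by
      have : (l:ℝ) ≤ N := f1.trans ht1
      exact_mod_cast this
    obtain ⟨g1, -⟩ := hG k l h hlN
    have hkl : ((l - k + 1 : ℕ) : ℝ) = (l:ℝ) - k + 1 := by
      rw [Nat.cast_add, Nat.cast_sub h, Nat.cast_one]
    rw [hkl] at g1
    have hA := vol_low (δ := δ) (Γ := pl N p '' Set.Icc s t) hw hr (vb D W F k l)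
      (im_bdd _ s t) (fun q hq => by
        unfold vb at hq
        rw [mem_vset] at hq
        obtain ⟨i, i1, i2, i3⟩ := hq
        have j1 : (k:ℝ) ≤ i := by exact_mod_cast i1
        have j2 : (i:ℝ) ≤ l := by exact_mod_cast i2
        refine ⟨p i, node_in hN (c1.trans j1) (j2.trans f1), ?_⟩
        rw [← i3]
        exact pos_ctr hδ hW _)
    have hA2 : ((vb D W F k l).card : ℝ) ≤ volume.real (Metric.thickening r
        (pl N p '' Set.Icc s t)) / (3 * (δ * W / 2) ^ 2) := by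
      rw [le_div_iff₀ (by positivity)]
      exact hA
    have h5 : ((t:ℝ) - s) * N ≤ ((l:ℝ) - k + 1) + 1 := by nlinarith
    calc ((t:ℝ) - s) * (δ ^ (7/4 : ℝ) * N) = δ ^ (7/4 : ℝ) * (((t:ℝ) - s) * N) := by ring
      _ ≤ δ ^ (7/4 : ℝ) * (((l:ℝ) - k + 1) + 1) := mul_le_mul_of_nonneg_left h5 hδp.le
      _ = δ ^ (7/4 : ℝ) * ((l:ℝ) - k + 1) + δ ^ (7/4 : ℝ) := by ring
      _ ≤ δ ^ (7/4 : ℝ) * ((W : ℝ) ^ (7/4 : ℝ) * (K * (((vb D W F k l).card : ℝ) + N0))) +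
          δ ^ (7/4 : ℝ) := by
          have := mul_le_mul_of_nonneg_left g1 hδp.le
          linarith
      _ = (δ * W) ^ (7/4 : ℝ) * (K * (((vb D W F k l).card : ℝ) + N0)) + δ ^ (7/4 : ℝ) := by
          rw [rpow_mul_74 hδ]; ring
      _ ≤ _ := by
          have h6 : K * (((vb D W F k l).card : ℝ) + N0) ≤ K * (volume.real
              (Metric.thickening r (pl N p '' Set.Icc s t)) / (3 * (δ * W / 2) ^ 2) + N0) :=
            mul_le_mul_of_nonneg_left (by linarith) hK.le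
          have := mul_le_mul_of_nonneg_left h6 hwp.le
          linarith

theorem time_area {D : Dm} (hD : D.Ok) {F : Finset Edg} (hF : F ⊆ D.edges) {δ : ℝ} (hδ : 0 < δ)
    {W : ℕ} (hW : 2 ≤ W) {K : ℝ} (hK : 0 < K) {N0 : ℕ} (hG : Good D W K N0 F)
    {s t : unitInterval} (hst : s ≤ t) {r : ℝ} (hr : 0 ≤ r) :
    volume.real (Metric.thickening r
      (pl (D.len F) (fun k => pos δ (D.walk F k)) '' Set.Icc s t)) ≤
      (K * ((((t:ℝ) - s) * (δ ^ (7/4 : ℝ) * D.len F) + 2 * δ ^ (7/4 : ℝ)) /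
        (δ * W) ^ (7/4 : ℝ)) + (N0 + 9 + 2 * bc D W)) * (4 * (r + 3 * (δ * W)) ^ 2) := by
  have hN := len_pos hD hF
  set N := D.len F with hNdef
  set p : ℕ → ℂ := fun k => pos δ (D.walk F k) with hp
  have hN' : (0:ℝ) < N := by exact_mod_cast hN
  have hW2 : (2:ℝ) ≤ W := by exact_mod_cast hW
  have hWr : (0:ℝ) < W := by linarith
  have hw : 0 < δ * W := by positivity
  have hδp : 0 < δ ^ (7/4 : ℝ) := Real.rpow_pos_of_pos hδ _
  have hwp : 0 < (δ * W) ^ (7/4 : ℝ) := Real.rpow_pos_of_pos hw _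
  have hst' : (s:ℝ) ≤ t := hst
  have hs0 : 0 ≤ (s:ℝ) * N := mul_nonneg s.2.1 hN'.le
  have ht0 : 0 ≤ (t:ℝ) * N := mul_nonneg t.2.1 hN'.le
  have ht1 : (t:ℝ) * N ≤ N := by nlinarith [t.2.2]
  have c1 := Nat.floor_le hs0
  have c2 := Nat.lt_floor_add_one ((s:ℝ) * N)
  have f1 := Nat.floor_le ht0
  have f2 := Nat.lt_floor_add_one ((t:ℝ) * N)
  have h : ⌊(s:ℝ) * N⌋₊ ≤ ⌊(t:ℝ) * N⌋₊ :=
    Nat.floor_mono (mul_le_mul_of_nonneg_right hst' hN'.le)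
  set k := ⌊(s:ℝ) * N⌋₊ with hk
  set l := ⌊(t:ℝ) * N⌋₊ with hl
  have hlN : l ≤ N := by
    have : (l:ℝ) ≤ N := f1.trans ht1
    exact_mod_cast this
  obtain ⟨-, g2⟩ := hG k l h hlN
  have hkl : ((l - k + 1 : ℕ) : ℝ) = (l:ℝ) - k + 1 := by
    rw [Nat.cast_add, Nat.cast_sub h, Nat.cast_one]
  rw [hkl] at g2
  have hA := vol_up (δ := δ) (Γ := pl N p '' Set.Icc s t) hw hr (vb D W F k l) (fun z hz => by
    obtain ⟨u, ⟨u1, u2⟩, rfl⟩ := hz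
    obtain ⟨i, i1, i2, i3⟩ := near_node hN (p := p) u1 u2 (η := δ / 2) (by positivity)
      (fun j _ => by
        rw [hp]
        simp only
        rw [walk_succ]
        exact pos_nxt hδ.le _ _)
    refine ⟨bk W (D.walk F i).1, ?_, ?_⟩
    · unfold vb
      rw [mem_vset]
      exact ⟨i, i1, i2, rfl⟩
    · have h1 := pos_ctr hδ (show 1 ≤ W by omega) (D.walk F i)
      have h2 := dist_triangle (pl N p u) (p i) (ctr δ (δ * W) (bk W (D.walk F i).1))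
      have h3 : δ * 2 ≤ δ * W := mul_le_mul_of_nonneg_left hW2 hδ.le
      have h4 : dist (p i) (ctr δ (δ * W) (bk W (D.walk F i).1)) ≤ 3/2 * (δ * W) := h1
      linarith)
  refine hA.trans (mul_le_mul_of_nonneg_right ?_ (by positivity))
  refine g2.trans (add_le_add_left ?_ _)
  refine mul_le_mul_of_nonneg_left ?_ hK.le
  rw [rpow_mul_74 hδ, div_le_div_iff₀ (Real.rpow_pos_of_pos hWr _)
    (mul_pos hδp (Real.rpow_pos_of_pos hWr _))]
  have h5 : ((l:ℝ) - k + 1) ≤ ((t:ℝ) - s) * N + 2 := by nlinarith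
  have hWp : 0 < (W:ℝ) ^ (7/4 : ℝ) := Real.rpow_pos_of_pos hWr _
  calc ((l:ℝ) - k + 1) * (δ ^ (7/4 : ℝ) * (W:ℝ) ^ (7/4 : ℝ)) ≤
      (((t:ℝ) - s) * N + 2) * (δ ^ (7/4 : ℝ) * (W:ℝ) ^ (7/4 : ℝ)) :=
        mul_le_mul_of_nonneg_right h5 (by positivity)
    _ = (((t:ℝ) - s) * (δ ^ (7/4 : ℝ) * N) + 2 * δ ^ (7/4 : ℝ)) * (W:ℝ) ^ (7/4 : ℝ) := by ring

end Y994.MC
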