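import Pool.Agent.TH992.L.Chain

/-!
The set of blocks visited by a piece of a path belongs to a family of exponentially many sets.
-/

set_option autoImplicit false

namespace Y994.MC

open H974 Finset H342P H984P H984H TH992.L

theorem nb9_symm {p q : Vtx} (h : q ∈ nb9 p) : p ∈ nb9 q := by
  rw [mem_nb9] at h ⊢
  rwa [det_sd_comm]

theorem AS_succ {k : ℕ} {p q : Vtx} (hq : q ∈ nb9 p) {A : Finset Vtx} (hA : A ∈ AS k q) :
    insert p A ∈ AS (k + 1) p := by
  classical
  unfold AS
  rw [mem_biUnion]
  exact ⟨q, hq, mem_image.mpr ⟨A, hA, rfl⟩⟩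

/-- insertion of a neighbour of a point -/
theorem AS_insert (m : ℕ) : ∀ (p : Vtx) (A : Finset Vtx), A ∈ AS m p → ∀ b ∈ A, ∀ c : Vtx,
    sd b c ≤ 1 → insert c A ∈ AS (m + 2) p := by
  classical
  induction m with
  | zero =>
    intro p A hA b hb c hc
    unfold AS at hA
    rw [mem_singleton] at hA
    subst hA
    rw [mem_singleton] at hb
    subst hb
    have h1 : c ∈ nb9 b := mem_nb9.mpr hc
    have h2 : ({b} : Finset Vtx) ∈ AS 0 b := by simp [AS]
    have h3 := AS_succ h1 (AS_succ (nb9_symm h1) h2)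
    have e : insert b (insert c ({b} : Finset Vtx)) = insert c {b} := by
      ext x; simp only [mem_insert, mem_singleton]; tauto
    rwa [e] at h3
  | succ m ih =>
    intro p A hA b hb c hc
    unfold AS at hA
    rw [mem_biUnion] at hA
    obtain ⟨q, hq, hA⟩ := hA
    rw [mem_image] at hA
    obtain ⟨A', hA', rfl⟩ := hA
    by_cases hbA : b ∈ A'
    · have h1 := ih q A' hA' b hbA c hc
      have h2 := AS_succ hq h1
      have e : insert p (insert c A') = insert c (insert p A') := by
        ext x; simp only [mem_insert]; tauto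
      rwa [e] at h2
    · have hbp : b = p := by
        rw [mem_insert] at hb
        rcases hb with h | h
        · exact h
        · exact absurd h hbA
      subst hbp
      have h1 : c ∈ nb9 b := mem_nb9.mpr hc
      have h2 := AS_succ h1 (AS_succ (nb9_symm h1) (AS_succ hq hA'))
      have e : insert b (insert c (insert b A')) = insert c (insert b A') := by
        ext x; simp only [mem_insert]; tauto
      rwa [e] at h2

/-- the visited set -/
noncomputable def vset (β : ℕ → Vtx) (k l : ℕ) : Finset Vtx := by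
  classical exact (Finset.Icc k l).image β

theorem mem_vset {β : ℕ → Vtx} {k l : ℕ} {q : Vtx} :
    q ∈ vset β k l ↔ ∃ t, k ≤ t ∧ t ≤ l ∧ β t = q := by
  unfold vset
  rw [mem_image]
  constructor
  · rintro ⟨t, ht, h⟩
    rw [mem_Icc] at ht
    exact ⟨t, ht.1, ht.2, h⟩
  · rintro ⟨t, h1, h2, h⟩
    exact ⟨t, mem_Icc.mpr ⟨h1, h2⟩, h⟩

theorem vset_mem_AS {β : ℕ → Vtx} (hβ : ∀ r, sd (β r) (β (r + 1)) ≤ 1) (k : ℕ) (n : ℕ) :
    1 ≤ (vset β k (k + n)).card ∧ vset β k (k + n) ∈ AS (2 * ((vset β k (k + n)).card - 1)) (β k) := by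
  classical
  induction n with
  | zero =>
    have e : vset β k (k + 0) = {β k} := by
      ext q
      rw [mem_vset, mem_singleton]
      constructor
      · rintro ⟨t, h1, h2, rfl⟩
        have : t = k := by omega
        rw [this]
      · rintro rfl
        exact ⟨k, le_rfl, by omega, rfl⟩
    rw [e]
    simp [AS]
  | succ n ih =>
    obtain ⟨ih1, ih2⟩ := ih
    have e : vset β k (k + (n + 1)) = insert (β (k + n + 1)) (vset β k (k + n)) := by
      ext q
      rw [mem_insert, mem_vset, mem_vset]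
      constructor
      · rintro ⟨t, h1, h2, rfl⟩
        by_cases h : t = k + n + 1
        · left; rw [h]
        · right; exact ⟨t, h1, by omega, rfl⟩
      · rintro (rfl | ⟨t, h1, h2, rfl⟩)
        · exact ⟨k + n + 1, by omega, by omega, rfl⟩
        · exact ⟨t, h1, by omega, rfl⟩
    rw [e]
    by_cases hin : β (k + n + 1) ∈ vset β k (k + n)
    · rw [insert_eq_of_mem hin]
      exact ⟨ih1, ih2⟩
    · rw [card_insert_of_notMem hin]
      refine ⟨by omega, ?_⟩
      have h1 := AS_insert _ _ _ ih2 (β (k + n)) (mem_vset.mpr ⟨k + n, by omega, le_rfl, rfl⟩)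
        (β (k + n + 1)) (hβ (k + n))
      have e2 : 2 * ((vset β k (k + n)).card + 1 - 1) = 2 * ((vset β k (k + n)).card - 1) + 2 := by
        omega
      rw [e2]
      exact h1

theorem vset_AS {β : ℕ → Vtx} (hβ : ∀ r, sd (β r) (β (r + 1)) ≤ 1) {k l : ℕ} (hkl : k ≤ l) :
    1 ≤ (vset β k l).card ∧ vset β k l ∈ AS (2 * ((vset β k l).card - 1)) (β k) := by
  have h := vset_mem_AS hβ k (l - k)
  rwa [show k + (l - k) = l by omega] at h

/-- the number of sets with `N` points -/
theorem AS_card' (N : ℕ) (p : Vtx) : ((AS (2 * (N - 1)) p).card : ℝ) ≤ 81 ^ N := by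
  have h := AS_card (2 * (N - 1)) p
  have h2 : ((AS (2 * (N - 1)) p).card : ℝ) ≤ ((9 ^ (2 * (N - 1)) : ℕ) : ℝ) := by exact_mod_cast h
  push_cast at h2
  refine h2.trans ?_
  rw [pow_mul]
  norm_num
  exact pow_le_pow_right₀ (by norm_num) (by omega)

end Y994.MC
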