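import Pool.Agent.TH992.T.Up
import Pool.Agent.Y994.MC.Anim

/-!
Upper bound: the number of vertices with two arms in the blocks of a connected set of blocks.
-/

set_option autoImplicit false

namespace Y994.MC

open H974 Finset H342P H984P H984N TH992.T

/-- exponential moments of the normalised numbers -/
theorem expY {a C0 : ℝ} (ha : 0 < a) (ha1 : a < 1) (B : ℝ) (hC0 : 0 ≤ C0) : ∃ M : ℝ, 1 ≤ M ∧
    ∀ (p : Edg → ℝ) (S : Finset Edg) (x : ℕ → Vtx → Finset Edg → ℝ), Fam a B C0 p S x →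
    ∀ (s : ℕ) (b c : ℤ), 1 ≤ s → Ex p S (fun F => Real.exp (Yb a x s b c F / 2)) ≤ M := by
  obtain ⟨u0, h0⟩ := tail0 ha ha1 B hC0
  refine ⟨max (Real.exp (u0 + 1 / 2) * (1 - Real.exp (-(1/2)))⁻¹) 1, le_max_right _ _,
    fun p S x h s b c hs => ?_⟩
  refine (expmom h.ok (Yb a x s b c) (fun F => Yb_nonneg h _ _ _ _) (u0 := u0) (fun v hv => ?_)
    ⌈B * (s : ℝ) ^ a⌉₊ (fun F _ => ?_)).trans (le_max_left _ _)
  · exact h0 p S x h s _ _ v hs hv
  · exact (Yb_le h hs _ _ F).trans (Nat.le_ceil _)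

/-- Chernoff bound on a finite set of blocks -/
theorem chernV {p : Edg → ℝ} (hp : Ok p) {S : Finset Edg} (G : Finset Vtx)
    (T : Vtx → Finset Edg) (hT : ∀ q, T q ⊆ S)
    (hd : ∀ q r : Vtx, q ≠ r → q.1 % 3 = r.1 % 3 → q.2 % 3 = r.2 % 3 → Disjoint (T q) (T r))
    (Y : Vtx → Finset Edg → ℝ) (hY : ∀ q, ∀ F, F ⊆ S → Y q F = Y q (F ∩ T q)) {M : ℝ}
    (hM1 : 1 ≤ M) (hM : ∀ q, Ex p S (fun F => Real.exp (Y q F)) ≤ M) (t : ℝ) :
    Pr p S (fun F => 9 * t ≤ ∑ q ∈ G, Y q F) ≤ 9 * (Real.exp (-t) * M ^ G.card) := by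
  classical
  set K : Finset (ℤ × ℤ) := Finset.Ico 0 3 ×ˢ Finset.Ico 0 3 with hK
  have hmap : ∀ q ∈ G, (q.1 % 3, q.2 % 3) ∈ K := by
    intro q _
    rw [hK, mem_product, mem_Ico, mem_Ico]
    simp only
    omega
  have hfib : ∀ F, ∑ q ∈ G, Y q F =
      ∑ c ∈ K, ∑ q ∈ G with (q.1 % 3, q.2 % 3) = c, Y q F := by
    intro F
    exact (sum_fiberwise_of_maps_to hmap _).symm
  have hcard : K.card = 9 := by rw [hK, card_product, Int.card_Ico]; rfl
  have h1 : Pr p S (fun F => 9 * t ≤ ∑ q ∈ G, Y q F) ≤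
      Ex p S (fun F => ∑ c ∈ K, ind (t ≤ ∑ q ∈ G with (q.1 % 3, q.2 % 3) = c, Y q F)) := by
    unfold Pr
    refine Ex_mono hp fun F _ => ?_
    by_cases h : 9 * t ≤ ∑ q ∈ G, Y q F
    · rw [ind_of h]
      rw [hfib] at h
      obtain ⟨c, hc, hc2⟩ : ∃ c ∈ K, t ≤ ∑ q ∈ G with (q.1 % 3, q.2 % 3) = c, Y q F := by
        by_contra hcon
        push Not at hcon
        have h2 : ∑ c ∈ K, ∑ q ∈ G with (q.1 % 3, q.2 % 3) = c, Y q F < ∑ c ∈ K, t :=
          sum_lt_sum_of_nonempty (card_pos.mp (by rw [hcard]; norm_num)) hcon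
        rw [sum_const, hcard, nsmul_eq_mul] at h2
        push_cast at h2
        linarith
      calc (1:ℝ) = ind (t ≤ ∑ q ∈ G with (q.1 % 3, q.2 % 3) = c, Y q F) := (ind_of hc2).symm
        _ ≤ _ := single_le_sum (f := fun c => ind (t ≤ ∑ q ∈ G with (q.1 % 3, q.2 % 3) = c, Y q F))
          (fun c _ => ind_nonneg _) hc
    · rw [ind_not_of h]
      exact sum_nonneg fun c _ => ind_nonneg _
  refine h1.trans ?_
  rw [Ex_sum]
  have h2 : ∀ c ∈ K, Ex p S (fun F => ind (t ≤ ∑ q ∈ G with (q.1 % 3, q.2 % 3) = c, Y q F)) ≤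
      Real.exp (-t) * M ^ G.card := by
    intro c _
    have h3 := chern1 hp (G.filter (fun q => (q.1 % 3, q.2 % 3) = c)) T (fun i _ => hT i)
      (fun i hi j hj hij => by
        rw [mem_filter] at hi hj
        have e1 := hi.2.trans hj.2.symm
        rw [Prod.mk.injEq] at e1
        exact hd i j hij e1.1 e1.2) Y (fun i _ => hY i) (fun i _ => hM i) t
    refine h3.trans (mul_le_mul_of_nonneg_left ?_ (Real.exp_pos _).le)
    exact pow_le_pow_right₀ hM1 (card_filter_le _ _)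
  refine (sum_le_sum h2).trans ?_
  rw [sum_const, hcard, nsmul_eq_mul]
  push_cast
  exact le_refl _

theorem Tb_disjZ {S : Finset Edg} {s : ℕ} (hs : 1 ≤ s) {q r : Vtx} (hqr : q ≠ r)
    (h1 : q.1 % 3 = r.1 % 3) (h2 : q.2 % 3 = r.2 % 3) :
    Disjoint (Tb S s (q.1 * s) (q.2 * s)) (Tb S s (r.1 * s) (r.2 * s)) := by
  obtain ⟨i, j⟩ := q
  obtain ⟨k, l⟩ := r
  simp only at h1 h2
  rw [disjoint_left]
  rintro ⟨X, Y, t⟩ he he'
  unfold Tb at he he'
  rw [mem_inter] at he he'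
  have key : ∀ i k : ℤ, i % 3 = k % 3 → ∀ (X : ℤ), i * s - s ≤ X →
      X ≤ i * s + s - 1 + s → k * s - s ≤ X → X ≤ k * s + s - 1 + s → i = k := by
    intro i k hik X h1 h2 h3 h4
    by_contra hne
    rcases lt_or_gt_of_ne hne with hlt | hgt
    · have : i + 3 ≤ k := by omega
      have h5 : (i + 3) * s ≤ k * s :=
        mul_le_mul_of_nonneg_right this (Int.natCast_nonneg s)
      have h6 : (1 : ℤ) ≤ s := by exact_mod_cast hs
      nlinarith
    · have : k + 3 ≤ i := by omega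
      have h5 : (k + 3) * s ≤ i * s :=
        mul_le_mul_of_nonneg_right this (Int.natCast_nonneg s)
      have h6 : (1 : ℤ) ≤ s := by exact_mod_cast hs
      nlinarith
  apply hqr
  cases t
  · rw [mem_RE_false] at he he'
    rw [key i k h1 X he.1.1 he.1.2.1 he'.1.1 he'.1.2.1,
      key j l h2 Y he.1.2.2.1 (by linarith [he.1.2.2.2]) he'.1.2.2.1 (by linarith [he'.1.2.2.2])]
  · rw [mem_RE_true] at he he'
    rw [key i k h1 X he.1.1 (by linarith [he.1.2.1]) he'.1.1 (by linarith [he'.1.2.1]),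
      key j l h2 Y he.1.2.2.1 he.1.2.2.2 he'.1.2.2.1 he'.1.2.2.2]

/-- normalised number of vertices with two arms in a block -/
noncomputable def Yq (D : Dm) (W : ℕ) (q : Vtx) (F : Finset Edg) : ℝ :=
  Yb (1/4) (xs D) W (q.1 * W) (q.2 * W) F

/-- A connected set of blocks with too many vertices. -/
def Heavy (D : Dm) (W : ℕ) (K : ℝ) (N0 Nm : ℕ) (q0 : Vtx) (F : Finset Edg) : Prop :=
  ∃ N ∈ range (Nm + 1), ∃ A ∈ TH992.L.AS (2 * (N - 1)) q0, A.card = N ∧
    K * ((max N N0 : ℕ) : ℝ) ≤ ∑ q ∈ A, Yq D W q F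

theorem four_max (N N0 : ℕ) : ((1:ℝ)/4) ^ (max N N0) ≤ (1/2) ^ N0 * (1/2) ^ N := by
  have e : ((1:ℝ)/4) ^ (max N N0) = (1/2) ^ (2 * max N N0) := by
    rw [pow_mul]; norm_num
  rw [e, ← pow_add]
  exact pow_le_pow_of_le_one (by norm_num) (by norm_num) (by omega)

theorem heavy_pr {C : ℝ} (hC : 0 < C) (hU : TwoUp C (1/4)) : ∃ K : ℝ, 0 < K ∧
    ∀ (D : Dm) (W : ℕ), 1 ≤ W → ∀ (N0 Nm : ℕ) (q0 : Vtx),
      P D.edges (Heavy D W K N0 Nm q0) ≤ 18 * (1/2) ^ N0 := by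
  obtain ⟨M, hM1, hM⟩ := expY (a := 1/4) (C0 := 4 * (C + 1) * (1 + 8 * (1 + 1 / (1 - 1/4))))
    (by norm_num) (by norm_num) 4 (by positivity)
  have hM0 : 0 < M := by linarith
  refine ⟨18 * Real.log (324 * M), ?_, fun D W hW N0 Nm q0 => ?_⟩
  · have : 0 < Real.log (324 * M) := Real.log_pos (by linarith)
    positivity
  set K := 18 * Real.log (324 * M) with hK
  have hF := xs_fam hC hU D
  have step : ∀ N : ℕ, ∀ A ∈ TH992.L.AS (2 * (N - 1)) q0,
      P D.edges (fun F => A.card = N ∧ K * ((max N N0 : ℕ) : ℝ) ≤ ∑ q ∈ A, Yq D W q F) ≤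
        9 * (1/324) ^ (max N N0) := by
    intro N A _
    by_cases hc : A.card = N
    · have h1 := chernV two_ok A (fun q => Tb D.edges W (q.1 * W) (q.2 * W))
        (fun q => inter_subset_right) (fun q r h1 h2 h3 => Tb_disjZ hW h1 h2 h3)
        (fun q F => Yq D W q F / 2) (fun q F hF' => by
          show Yq D W q F / 2 = Yq D W q (F ∩ _) / 2
          unfold Yq Yb
          rw [← Nb_local hF W _ _ F hF']) hM1
        (fun q => hM _ _ _ hF W _ _ hW) (K / 18 * ((max N N0 : ℕ) : ℝ))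
      refine le_trans (Pr_mono two_ok fun F _ h => ?_) (h1.trans ?_)
      · have h2 := h.2
        rw [← sum_div]
        linarith
      · have e1 : Real.exp (-(K / 18 * ((max N N0 : ℕ) : ℝ))) = (1 / (324 * M)) ^ (max N N0) := by
          rw [hK]
          have e2 : -(18 * Real.log (324 * M) / 18 * ((max N N0 : ℕ) : ℝ)) =
              ((max N N0 : ℕ) : ℝ) * (-Real.log (324 * M)) := by ring
          rw [e2, Real.exp_nat_mul, Real.exp_neg, Real.exp_log (by positivity), one_div]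
        have e3 : M ^ A.card ≤ M ^ (max N N0) := pow_le_pow_right₀ hM1 (by omega)
        rw [e1]
        refine mul_le_mul_of_nonneg_left ?_ (by norm_num)
        calc (1 / (324 * M)) ^ (max N N0) * M ^ A.card
            ≤ (1 / (324 * M)) ^ (max N N0) * M ^ (max N N0) :=
              mul_le_mul_of_nonneg_left e3 (by positivity)
          _ = (1/324) ^ (max N N0) := by
              rw [← mul_pow]
              congr 1
              field_simp
    · have h0 : P D.edges (fun F => A.card = N ∧ K * ((max N N0 : ℕ) : ℝ) ≤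
          ∑ q ∈ A, Yq D W q F) = 0 := by
        unfold P Pr
        rw [Ex_congr (g := fun _ => 0) (fun F _ => ind_not_of (fun h => hc h.1)), Ex_const]
      rw [h0]
      positivity
  unfold Heavy
  refine (Pr_exists_le two_ok _ _ _).trans ?_
  have h2 : ∀ N ∈ range (Nm + 1), Pr (fun _ => (1/2:ℝ)) D.edges (fun F =>
      ∃ A ∈ TH992.L.AS (2 * (N - 1)) q0, A.card = N ∧
        K * ((max N N0 : ℕ) : ℝ) ≤ ∑ q ∈ A, Yq D W q F) ≤ 9 * (1/2) ^ N0 * (1/2) ^ N := by
    intro N _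
    refine (Pr_exists_le two_ok _ _ _).trans ?_
    refine (sum_le_card_nsmul _ _ _ (step N)).trans ?_
    rw [nsmul_eq_mul]
    have h3 := AS_card' N q0
    have h4 : ((TH992.L.AS (2 * (N - 1)) q0).card : ℝ) ≤ 81 ^ (max N N0) :=
      h3.trans (pow_le_pow_right₀ (by norm_num) (le_max_left _ _))
    calc ((TH992.L.AS (2 * (N - 1)) q0).card : ℝ) * (9 * (1/324) ^ (max N N0))
        ≤ 81 ^ (max N N0) * (9 * (1/324) ^ (max N N0)) :=
          mul_le_mul_of_nonneg_right h4 (by positivity)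
      _ = 9 * (1/4) ^ (max N N0) := by
          have : (1/4 : ℝ) ^ (max N N0) = 81 ^ (max N N0) * (1/324) ^ (max N N0) := by
            rw [← mul_pow]; norm_num
          rw [this]; ring
      _ ≤ 9 * ((1/2) ^ N0 * (1/2) ^ N) :=
          mul_le_mul_of_nonneg_left (four_max N N0) (by norm_num)
      _ = 9 * (1/2) ^ N0 * (1/2) ^ N := by ring
  refine (sum_le_sum h2).trans ?_
  rw [← mul_sum]
  have h5 := sum_geometric_two_le (Nm + 1)
  have h6 : (0:ℝ) ≤ 9 * (1/2) ^ N0 := by positivity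
  calc 9 * (1/2 : ℝ) ^ N0 * ∑ i ∈ range (Nm + 1), (1/2) ^ i ≤ 9 * (1/2) ^ N0 * 2 :=
        mul_le_mul_of_nonneg_left h5 h6
    _ = 18 * (1/2) ^ N0 := by ring

end Y994.MC
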