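import Pool.Agent.Y994.MC.LowD
import Pool.Agent.H984R4.NP.Two

/-!
The comparison of the duration and the number of visited blocks, at one scale.
-/

set_option autoImplicit false

namespace Y994.MC

open H974 Finset H342P H984P H984N TH992.L

/-- The duration and the number of visited blocks are comparable for all pieces. -/
def Good (D : Dm) (W : ℕ) (K : ℝ) (N0 : ℕ) (F : Finset Edg) : Prop :=
  ∀ k l : ℕ, k ≤ l → l ≤ D.len F →
    ((l - k + 1 : ℕ) : ℝ) ≤ (W : ℝ) ^ (7/4 : ℝ) * (K * (((vb D W F k l).card : ℝ) + N0)) ∧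
    ((vb D W F k l).card : ℝ) ≤ K * (((l - k + 1 : ℕ) : ℝ) / (W : ℝ) ^ (7/4 : ℝ)) +
      (N0 + 9 + 2 * bc D W)

/-- The blocks of the rectangle. -/
noncomputable def SB (D : Dm) (W : ℕ) : Finset Vtx :=
  Finset.Icc (D.l / (W : ℤ)) (D.r / (W : ℤ)) ×ˢ Finset.Icc 0 (D.h / (W : ℤ))

theorem bk_SB {D : Dm} (hD : D.Ok) {F : Finset Edg} (hF : F ⊆ D.edges) {W : ℕ} (hW : 1 ≤ W)
    (k : ℕ) : bk W (D.walk F k).1 ∈ SB D W := by
  have hW' : (0 : ℤ) < W := by exact_mod_cast hW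
  obtain ⟨⟨h1, h2⟩, h3, h4⟩ : (D.l ≤ (D.walk F k).1.1 ∧ (D.walk F k).1.1 ≤ D.r) ∧
      0 ≤ (D.walk F k).1.2 ∧ (D.walk F k).1.2 ≤ D.h := by
    have := walk_in hD hF k
    unfold inR at this
    omega
  unfold SB bk
  rw [mem_product, mem_Icc, mem_Icc]
  exact ⟨⟨Int.ediv_le_ediv hW' h1, Int.ediv_le_ediv hW' h2⟩,
    Int.ediv_nonneg h3 hW'.le, Int.ediv_le_ediv hW' h4⟩

theorem good_pr {c C : ℝ} (hc : 0 < c) (hC : 0 < C) (hL : LowA c (1/4)) (hU : TwoUp C (1/4)) :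
    ∃ (Γ : ℕ) (K : ℝ), 1 ≤ Γ ∧ 0 < K ∧ ∀ D : Dm, D.Ok → ∀ a : ℕ, 5 ≤ a → ∀ N0 : ℕ,
      P D.edges (fun F => ¬ Good D (Γ * a) K N0 F) ≤
        ((SB D (Γ * a)).card : ℝ) * (20 * (1/2) ^ N0) := by
  obtain ⟨Γ, n0, c', hΓ, hc', hbad⟩ := bad_pr hc hC hL hU (η := (1/648) ^ 196) (by positivity)
  obtain ⟨K1, hK1, hheavy⟩ := heavy_pr hC hU
  have hΓr : (0:ℝ) < Γ := by exact_mod_cast hΓ
  refine ⟨Γ, max K1 (12 * (Γ:ℝ) ^ (7/4 : ℝ) / c'), hΓ, lt_max_of_lt_left hK1,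
    fun D hD a ha N0 => ?_⟩
  set K := max K1 (12 * (Γ:ℝ) ^ (7/4 : ℝ) / c') with hK
  obtain ⟨R, L, w, W', hp, hW', hpr⟩ := hbad a ha
  set M := ⌈c' * (a:ℝ) ^ (7/4 : ℝ)⌉₊ with hM
  set W : ℕ := Γ * a with hWdef
  have hWW : W' = (W : ℤ) := by rw [hW', hWdef]; push_cast; ring
  subst hWW
  have hW1 : 1 ≤ W := Nat.mul_pos hΓ (by omega)
  have har : (0:ℝ) < a := by
    have : 0 < a := by omega
    exact_mod_cast this
  have hWr : (0:ℝ) < (W:ℝ) := by exact_mod_cast hW1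
  have hWp : (0:ℝ) < (W:ℝ) ^ (7/4 : ℝ) := Real.rpow_pos_of_pos hWr _
  obtain ⟨Nm, hNm⟩ := len_bdd D
  -- the deterministic part
  have hdet : ∀ F ⊆ D.edges, ¬ Good D W K N0 F → ∃ q ∈ SB D W,
      Heavy D W K1 N0 Nm q F ∨ Holes D.edges M R L w W n0 N0 Nm q F := by
    intro F hF hnot
    by_contra hcon
    push Not at hcon
    apply hnot
    intro k l hkl hl
    obtain ⟨hn1, hn2⟩ := hcon _ (bk_SB hD hF hW1 k)
    have hNm' := hNm F hF
    constructor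
    · have h1 := up_det hD hF hW1 (K := K1) (N0 := N0) hNm' hkl hl hn1
      refine h1.trans (mul_le_mul_of_nonneg_left ?_ hWp.le)
      have h2 : ((max (vb D W F k l).card N0 : ℕ) : ℝ) ≤ ((vb D W F k l).card : ℝ) + N0 := by
        push_cast
        exact max_le (by linarith [(Nat.cast_nonneg N0 : (0:ℝ) ≤ N0)])
          (by linarith [(Nat.cast_nonneg (vb D W F k l).card : (0:ℝ) ≤ _)])
      calc K1 * ((max (vb D W F k l).card N0 : ℕ) : ℝ) ≤ K1 * (((vb D W F k l).card : ℝ) + N0) :=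
            mul_le_mul_of_nonneg_left h2 hK1.le
        _ ≤ K * (((vb D W F k l).card : ℝ) + N0) :=
            mul_le_mul_of_nonneg_right (le_max_left _ _) (by positivity)
    · have hpos : 0 ≤ K * (((l - k + 1 : ℕ) : ℝ) / (W : ℝ) ^ (7/4 : ℝ)) := by
        have : 0 < K := lt_max_of_lt_left hK1
        positivity
      have hbc : (0:ℝ) ≤ (bc D W : ℝ) := Nat.cast_nonneg _
      have hN00 : (0:ℝ) ≤ (N0 : ℝ) := Nat.cast_nonneg _
      by_cases hA : 10 ≤ (vb D W F k l).card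
      · have h1 := low_det hD hF hp hNm' hkl hl hn2 hA
        have hMr : c' * (a:ℝ) ^ (7/4 : ℝ) ≤ (M:ℝ) := Nat.le_ceil _
        have hap : (0:ℝ) < (a:ℝ) ^ (7/4 : ℝ) := Real.rpow_pos_of_pos har _
        have hM0 : (0:ℝ) < (M:ℝ) := lt_of_lt_of_le (by positivity) hMr
        have h2 : 3 * ((M:ℝ) * ((vb D W F k l).card : ℝ)) ≤
            36 * ((l - k + 1 : ℕ) : ℝ) + M * (N0 + 4 * bc D W) := by
          have e : l + 1 - k = l - k + 1 := by omega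
          rw [e] at h1
          exact_mod_cast h1
        have h3 : ((vb D W F k l).card : ℝ) ≤
            12 * ((l - k + 1 : ℕ) : ℝ) / M + (N0 + 4 * bc D W) / 3 := by
          have h4 : ((vb D W F k l).card : ℝ) =
              3 * ((M:ℝ) * ((vb D W F k l).card : ℝ)) / (3 * M) := by
            field_simp
          have h5 : 12 * ((l - k + 1 : ℕ) : ℝ) / M + (N0 + 4 * bc D W) / 3 =
              (36 * ((l - k + 1 : ℕ) : ℝ) + M * (N0 + 4 * bc D W)) / (3 * M) := by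
            field_simp
            ring
          rw [h4, h5]
          exact div_le_div_of_nonneg_right h2 (by positivity)
        have h6 : 12 * ((l - k + 1 : ℕ) : ℝ) / M ≤
            K * (((l - k + 1 : ℕ) : ℝ) / (W : ℝ) ^ (7/4 : ℝ)) := by
          have e1 : (W : ℝ) ^ (7/4 : ℝ) = (Γ:ℝ) ^ (7/4 : ℝ) * (a:ℝ) ^ (7/4 : ℝ) := by
            rw [hWdef]
            push_cast
            exact Real.mul_rpow hΓr.le har.le
          have hΓp : (0:ℝ) < (Γ:ℝ) ^ (7/4 : ℝ) := Real.rpow_pos_of_pos hΓr _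
          have h7 : 12 * ((l - k + 1 : ℕ) : ℝ) / M ≤
              12 * ((l - k + 1 : ℕ) : ℝ) / (c' * (a:ℝ) ^ (7/4 : ℝ)) :=
            div_le_div_of_nonneg_left (by positivity) (by positivity) hMr
          have h8 : 12 * ((l - k + 1 : ℕ) : ℝ) / (c' * (a:ℝ) ^ (7/4 : ℝ)) =
              (12 * (Γ:ℝ) ^ (7/4 : ℝ) / c') * (((l - k + 1 : ℕ) : ℝ) / (W : ℝ) ^ (7/4 : ℝ)) := by
            rw [e1]
            field_simp
          refine h7.trans ?_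
          rw [h8]
          exact mul_le_mul_of_nonneg_right (le_max_right _ _) (by positivity)
        linarith
      · have h1 : ((vb D W F k l).card : ℝ) ≤ 9 := by
          have : (vb D W F k l).card ≤ 9 := by omega
          exact_mod_cast this
        linarith
  refine (Pr_mono two_ok hdet).trans ?_
  refine (Pr_exists_le two_ok _ _ _).trans ?_
  refine (sum_le_card_nsmul _ _ (20 * (1/2) ^ N0) fun q _ => ?_).trans ?_
  · refine (Pr_or_le two_ok _ _ _).trans ?_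
    have h1 := hheavy D W hW1 N0 Nm q
    have h2 := holes_pr (S := D.edges) hp (fun q hq => hpr q D.edges hq) N0 Nm q
    unfold P at h1
    linarith
  · rw [nsmul_eq_mul]

theorem SB_card {D : Dm} (hD : D.Ok) {W : ℕ} (hW : 1 ≤ W) {n : ℝ}
    (h1 : ((D.r - D.l : ℤ) : ℝ) ≤ n) (h2 : (D.h : ℝ) ≤ n) :
    ((SB D W).card : ℝ) ≤ (n / W + 2) ^ 2 ∧ (bc D W : ℝ) ≤ 28 * (n / W) + 42 := by
  obtain ⟨d1, d2, d3, -, -⟩ := hD
  have hW' : (0 : ℤ) < W := by exact_mod_cast hW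
  have hWr : (0 : ℝ) < W := by exact_mod_cast hW
  have e0 : (W : ℤ) * (D.l / W) ≤ D.l := Int.mul_ediv_self_le hW'.ne'
  have e1 : D.l < (W : ℤ) * (D.l / W) + W := Int.lt_mul_ediv_self_add hW'
  have e2 : (W : ℤ) * (D.r / W) ≤ D.r := Int.mul_ediv_self_le hW'.ne'
  have e4 : (W : ℤ) * (D.h / W) ≤ D.h := Int.mul_ediv_self_le hW'.ne'
  have e6 : (W : ℤ) * ((D.r - D.l) / W) ≤ D.r - D.l := Int.mul_ediv_self_le hW'.ne'
  have r1 : ((D.l : ℤ) : ℝ) < (W : ℝ) * ((D.l / (W:ℤ) : ℤ) : ℝ) + W := by exact_mod_cast e1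
  have r2 : (W : ℝ) * ((D.r / (W:ℤ) : ℤ) : ℝ) ≤ ((D.r : ℤ) : ℝ) := by exact_mod_cast e2
  have r4 : (W : ℝ) * ((D.h / (W:ℤ) : ℤ) : ℝ) ≤ ((D.h : ℤ) : ℝ) := by exact_mod_cast e4
  have r6 : (W : ℝ) * (((D.r - D.l) / (W:ℤ) : ℤ) : ℝ) ≤ ((D.r - D.l : ℤ) : ℝ) := by
    exact_mod_cast e6
  push_cast at h1 r6
  have hn : 0 ≤ n := le_trans (by exact_mod_cast d3.le) h2
  have s1 : ((D.r / (W:ℤ) : ℤ) : ℝ) - ((D.l / (W:ℤ) : ℤ) : ℝ) ≤ n / W + 1 := by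
    rw [← sub_le_iff_le_add, le_div_iff₀ hWr]
    nlinarith
  have s2 : ((D.h / (W:ℤ) : ℤ) : ℝ) ≤ n / W := by
    rw [le_div_iff₀ hWr]
    nlinarith
  have s3 : (((D.r - D.l) / (W:ℤ) : ℤ) : ℝ) ≤ n / W := by
    rw [le_div_iff₀ hWr]
    nlinarith
  have hh0 : 0 ≤ D.h / (W:ℤ) := Int.ediv_nonneg d3.le hW'.le
  have hg0 : 0 ≤ (D.r - D.l) / (W:ℤ) := Int.ediv_nonneg (by omega) hW'.le
  have hlr : D.l / (W:ℤ) ≤ D.r / (W:ℤ) := Int.ediv_le_ediv hW' (by omega)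
  constructor
  · unfold SB
    rw [card_product, Int.card_Icc, Int.card_Icc]
    push_cast
    have t1 : (((D.r / (W:ℤ) + 1 - D.l / (W:ℤ)).toNat : ℕ) : ℝ) ≤ n / W + 2 := by
      have : (((D.r / (W:ℤ) + 1 - D.l / (W:ℤ)).toNat : ℕ) : ℤ) =
          D.r / (W:ℤ) + 1 - D.l / (W:ℤ) := Int.toNat_of_nonneg (by omega)
      have t : (((D.r / (W:ℤ) + 1 - D.l / (W:ℤ)).toNat : ℕ) : ℝ) =
          ((D.r / (W:ℤ) : ℤ) : ℝ) + 1 - ((D.l / (W:ℤ) : ℤ) : ℝ) := by exact_mod_cast this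
      rw [t]
      linarith
    have t2 : (((D.h / (W:ℤ) + 1 - 0).toNat : ℕ) : ℝ) ≤ n / W + 2 := by
      have : (((D.h / (W:ℤ) + 1 - 0).toNat : ℕ) : ℤ) =
          D.h / (W:ℤ) + 1 := by omega
      have t : (((D.h / (W:ℤ) + 1 - 0).toNat : ℕ) : ℝ) =
          ((D.h / (W:ℤ) : ℤ) : ℝ) + 1 := by exact_mod_cast this
      rw [t]
      linarith
    rw [sq]
    exact mul_le_mul t1 t2 (Nat.cast_nonneg _) (by positivity)
  · unfold bc
    have : (((14 * (D.h / (W:ℤ) + 1) + 14 * ((D.r - D.l) / (W:ℤ) + 2)).toNat : ℕ) : ℤ) =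
        14 * (D.h / (W:ℤ) + 1) + 14 * ((D.r - D.l) / (W:ℤ) + 2) :=
      Int.toNat_of_nonneg (by omega)
    have t : (((14 * (D.h / (W:ℤ) + 1) + 14 * ((D.r - D.l) / (W:ℤ) + 2)).toNat : ℕ) : ℝ) =
        14 * (((D.h / (W:ℤ) : ℤ) : ℝ) + 1) + 14 * ((((D.r - D.l) / (W:ℤ) : ℤ) : ℝ) + 2) := by
      exact_mod_cast this
    rw [t]
    linarith

end Y994.MC
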