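import Pool.Agent.Y994.MC.UpP

/-!
Upper bound: the duration of a piece of the path in terms of the visited blocks.
-/

set_option autoImplicit false

namespace Y994.MC

open H974 Finset H342P H984P H984N TH992.T

/-- the block of a vertex -/
def bk (W : ℤ) (v : Vtx) : Vtx := (v.1 / W, v.2 / W)

/-- the blocks visited between the times `k` and `l` -/
noncomputable def vb (D : Dm) (W : ℕ) (F : Finset Edg) (k l : ℕ) : Finset Vtx :=
  vset (fun t => bk W (D.walk F t).1) k l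

theorem bk_mem {W : ℕ} (hW : 1 ≤ W) (v : Vtx) :
    v ∈ Bq ((bk W v).1 * W) ((bk W v).2 * W) W := by
  have hW' : (0 : ℤ) < W := by exact_mod_cast hW
  rw [mem_Bq]
  have a1 : (W : ℤ) * (v.1 / W) ≤ v.1 := Int.mul_ediv_self_le hW'.ne'
  have a2 : v.1 < (W : ℤ) * (v.1 / W) + W := Int.lt_mul_ediv_self_add hW'
  have b1 : (W : ℤ) * (v.2 / W) ≤ v.2 := Int.mul_ediv_self_le hW'.ne'
  have b2 : v.2 < (W : ℤ) * (v.2 / W) + W := Int.lt_mul_ediv_self_add hW'
  unfold bk
  simp only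
  rw [mul_comm (v.1 / (W : ℤ)), mul_comm (v.2 / (W : ℤ))]
  omega

theorem xs_nonneg (D : Dm) (s : ℕ) (v : Vtx) (F : Finset Edg) : 0 ≤ xs D s v F := by
  unfold xs
  refine sum_nonneg fun q _ => ?_
  split_ifs
  · exact ind_nonneg _
  · exact le_refl _

/-- the corners of a visited vertex -/
theorem xs_vis {D : Dm} (hD : D.Ok) {F : Finset Edg} (hF : F ⊆ D.edges) (s : ℕ) {v : Vtx}
    (hv : (D.l ≤ v.1 ∧ v.1 ≤ D.r) ∧ 0 ≤ v.2 ∧ v.2 ≤ D.h) :
    ∑ q : Q4, ind (D.Vis F (v, q)) ≤ xs D s v F := by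
  unfold xs
  refine sum_le_sum fun q _ => ?_
  rw [if_pos (xs_mem' q hv)]
  refine ind_mono fun h => ?_
  rcases le_or_gt (min (s : ℤ) (D.bd v)) 0 with hm | hm
  · exact Or.inl hm
  · exact Or.inr (vis_two hD hF h hm (min_le_right _ _))

/-- the duration of a piece of the path -/
theorem time_le {D : Dm} (hD : D.Ok) {F : Finset Edg} (hF : F ⊆ D.edges) {W : ℕ} (hW : 1 ≤ W)
    {k l : ℕ} (hkl : k ≤ l) (hl : l ≤ D.len F) :
    ((l - k + 1 : ℕ) : ℝ) ≤ (W : ℝ) ^ (7/4 : ℝ) * ∑ q ∈ vb D W F k l, Yq D W q F := by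
  classical
  set A := vb D W F k l with hA
  have hWp : (0 : ℝ) < (W : ℝ) ^ (7/4 : ℝ) := Real.rpow_pos_of_pos (by exact_mod_cast hW) _
  have e0 : (W : ℝ) ^ (7/4 : ℝ) * ∑ q ∈ A, Yq D W q F =
      ∑ q ∈ A, Nb (xs D) W (q.1 * W) (q.2 * W) F := by
    rw [mul_sum]
    refine sum_congr rfl fun q _ => ?_
    unfold Yq Yb
    have e : (2 - 1/4 : ℝ) = 7/4 := by norm_num
    rw [e, mul_div_cancel₀ _ hWp.ne']
  rw [e0]
  have e1 : ((l - k + 1 : ℕ) : ℝ) = ∑ i ∈ Finset.Icc k l, (1 : ℝ) := by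
    rw [sum_const, Nat.card_Icc, nsmul_eq_mul, mul_one]
    congr 1
    omega
  have e2 : ∑ i ∈ Finset.Icc k l, (1 : ℝ) ≤ ∑ i ∈ Finset.range (D.len F + 1),
      (fun σ : St => if bk W σ.1 ∈ A then (1:ℝ) else 0) (D.walk F i) := by
    have hsub : Finset.Icc k l ⊆ Finset.range (D.len F + 1) := by
      intro i hi
      rw [mem_Icc] at hi
      rw [mem_range]
      omega
    refine le_trans (sum_le_sum fun i hi => ?_) (sum_le_sum_of_subset_of_nonneg hsub
      fun i _ _ => by dsimp only; split_ifs <;> norm_num)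
    rw [mem_Icc] at hi
    have : bk W (D.walk F i).1 ∈ A := by
      rw [hA]
      unfold vb
      rw [mem_vset]
      exact ⟨i, hi.1, hi.2, rfl⟩
    dsimp only
    rw [if_pos this]
  rw [e1]
  refine e2.trans ?_
  rw [Moments_sum hD hF (fun σ : St => if bk W σ.1 ∈ A then (1:ℝ) else 0)]
  unfold Dm.states
  rw [sum_product]
  have e3 : ∑ v ∈ Finset.Icc D.l D.r ×ˢ Finset.Icc 0 D.h, ∑ c ∈ (Finset.univ : Finset Q4),
      ind (D.Vis F (v, c)) * (if bk W ((v, c) : St).1 ∈ A then (1:ℝ) else 0) ≤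
      ∑ v ∈ (Finset.Icc D.l D.r ×ˢ Finset.Icc 0 D.h).filter (fun v => bk W v ∈ A),
        xs D W v F := by
    rw [sum_filter]
    refine sum_le_sum fun v hv => ?_
    rw [mem_product, mem_Icc, mem_Icc] at hv
    by_cases h : bk W v ∈ A
    · rw [if_pos h]
      simp only [h, if_true, mul_one]
      exact xs_vis hD hF W hv
    · rw [if_neg h]
      simp only [h, if_false, mul_zero, sum_const_zero]
      exact le_rfl
  refine e3.trans ?_
  rw [← sum_fiberwise_of_maps_to (s := (Finset.Icc D.l D.r ×ˢ Finset.Icc 0 D.h).filter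
    (fun v => bk W v ∈ A)) (t := A) (g := fun v => bk W v)
    (fun v hv => (mem_filter.mp hv).2)]
  refine sum_le_sum fun q _ => ?_
  unfold Nb
  refine sum_le_sum_of_subset_of_nonneg (fun v hv => ?_) fun v _ _ => xs_nonneg D W v F
  rw [mem_filter] at hv
  rw [← hv.2]
  exact bk_mem hW v

theorem bk_step {W : ℤ} (hW : 1 ≤ W) {u v : Vtx} (h : sd u v ≤ W) : sd (bk W u) (bk W v) ≤ 1 := by
  have a1 : W * (u.1 / W) ≤ u.1 := Int.mul_ediv_self_le (by omega)
  have a2 : u.1 < W * (u.1 / W) + W := Int.lt_mul_ediv_self_add (by omega)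
  have a3 : W * (v.1 / W) ≤ v.1 := Int.mul_ediv_self_le (by omega)
  have a4 : v.1 < W * (v.1 / W) + W := Int.lt_mul_ediv_self_add (by omega)
  have b1 : W * (u.2 / W) ≤ u.2 := Int.mul_ediv_self_le (by omega)
  have b2 : u.2 < W * (u.2 / W) + W := Int.lt_mul_ediv_self_add (by omega)
  have b3 : W * (v.2 / W) ≤ v.2 := Int.mul_ediv_self_le (by omega)
  have b4 : v.2 < W * (v.2 / W) + W := Int.lt_mul_ediv_self_add (by omega)
  have h' : H984H.sd u v ≤ W := h
  show H984H.sd (bk W u) (bk W v) ≤ 1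
  rw [H984H.det_sd_eq] at h' ⊢
  unfold bk
  simp only
  have key : ∀ s t : ℤ, W * s < W * t + 2 * W → s - t ≤ 1 := by
    intro s t hst
    by_contra hcon
    push Not at hcon
    have : W * (t + 2) ≤ W * s := mul_le_mul_of_nonneg_left (by omega) (by omega)
    have e : W * (t + 2) = W * t + 2 * W := by ring
    omega
  have c1 := key (u.1 / W) (v.1 / W) (by omega)
  have c2 := key (v.1 / W) (u.1 / W) (by omega)
  have c3 := key (u.2 / W) (v.2 / W) (by omega)
  have c4 := key (v.2 / W) (u.2 / W) (by omega)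
  omega

/-- the visited blocks form a connected set -/
theorem vb_AS {D : Dm} {F : Finset Edg} {W : ℕ} (hW : 1 ≤ W) {k l : ℕ} (hkl : k ≤ l) :
    1 ≤ (vb D W F k l).card ∧ vb D W F k l ∈
      TH992.L.AS (2 * ((vb D W F k l).card - 1)) (bk W (D.walk F k).1) := by
  have hW' : (1 : ℤ) ≤ W := by exact_mod_cast hW
  exact vset_AS (β := fun t => bk W (D.walk F t).1)
    (fun r => bk_step hW' ((walk_step D F r).trans hW')) hkl

theorem vb_card {D : Dm} {F : Finset Edg} {W : ℕ} {k l : ℕ} (hl : l ≤ D.len F) :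
    (vb D W F k l).card ≤ D.len F + 1 := by
  classical
  unfold vb vset
  refine card_image_le.trans ?_
  rw [Nat.card_Icc]
  omega

/-- a bound for the lengths -/
theorem len_bdd (D : Dm) : ∃ Nm : ℕ, ∀ F : Finset Edg, F ⊆ D.edges → D.len F + 1 ≤ Nm := by
  classical
  refine ⟨D.edges.powerset.sup (fun F => D.len F + 1), fun F hF => ?_⟩
  exact le_sup (f := fun F => D.len F + 1) (mem_powerset.mpr hF)

/-- Outside the heavy event the duration is at most a multiple of the number of blocks. -/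
theorem up_det {D : Dm} (hD : D.Ok) {F : Finset Edg} (hF : F ⊆ D.edges) {W : ℕ} (hW : 1 ≤ W)
    {K : ℝ} {N0 Nm : ℕ} (hNm : D.len F + 1 ≤ Nm) {k l : ℕ} (hkl : k ≤ l) (hl : l ≤ D.len F)
    (hn : ¬ Heavy D W K N0 Nm (bk W (D.walk F k).1) F) :
    ((l - k + 1 : ℕ) : ℝ) ≤ (W : ℝ) ^ (7/4 : ℝ) * (K * ((max (vb D W F k l).card N0 : ℕ) : ℝ)) := by
  have h1 := time_le hD hF hW hkl hl
  obtain ⟨h2, h3⟩ := vb_AS (D := D) (F := F) hW hkl
  have h4 := vb_card (D := D) (F := F) (W := W) (k := k) hl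
  refine h1.trans (mul_le_mul_of_nonneg_left ?_ (Real.rpow_nonneg (Nat.cast_nonneg _) _))
  by_contra hcon
  push Not at hcon
  apply hn
  exact ⟨_, mem_range.mpr (by omega), _, h3, rfl, hcon.le⟩

end Y994.MC
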