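import Pool.Agent.Y994.MC.LowP
import Pool.Agent.Y994.MC.UpD
import Pool.Agent.H984R4.NP.Bulk

/-!
Lower bound: a piece of the path which visits many blocks has a long duration.
-/

set_option autoImplicit false

namespace Y994.MC

open H974 Finset H342P H984P H984N TH992.L

theorem bulk_locN {D : Dm} {R L : ℤ} {M : ℕ} (hR : 1 ≤ R) (hRL : 3 * R ≤ L)
    {F : Finset Edg} {k l0 : ℕ} (hkl : k ≤ l0) (hbd : 4 * L ≤ D.bd (D.walk F k).1)
    (hfar : Far (D.walk F k).1 R (D.walk F l0).1) (hlM : l0 - k < M) :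
    H984H.bulk_sq M R L (L * ((D.walk F k).1.1 / L) - 2 * L)
      (L * ((D.walk F k).1.2 / L) - 2 * L) F := by
  classical
  have hL : 0 < L := by omega
  set v := (D.walk F k).1 with hv
  unfold Dm.bd at hbd
  rw [le_min_iff, le_min_iff, le_min_iff] at hbd
  obtain ⟨⟨b1, b2⟩, b3, b4⟩ := hbd
  have q1 : L * (v.1 / L) ≤ v.1 := Int.mul_ediv_self_le hL.ne'
  have q2 : v.1 < L * (v.1 / L) + L := Int.lt_mul_ediv_self_add hL
  have q3 : L * (v.2 / L) ≤ v.2 := Int.mul_ediv_self_le hL.ne'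
  have q4 : v.2 < L * (v.2 / L) + L := Int.lt_mul_ediv_self_add hL
  set b := L * (v.1 / L) - 2 * L with hb
  set c := L * (v.2 / L) - 2 * L with hc
  have hex : ∃ t, Far v R (orb (D.cfg F) (D.walk F k) t).1 := by
    refine ⟨l0 - k, ?_⟩
    rw [← bulk_walk, Nat.add_sub_cancel' hkl]
    exact hfar
  have ht0 : Nat.find hex ≤ l0 - k := by
    apply Nat.find_min' hex
    rw [← bulk_walk, Nat.add_sub_cancel' hkl]
    exact hfar
  have hcong : orb (↑(F ∩ RE b (b + 4 * L) c (c + 4 * L)) : Set Edg) (D.walk F k)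
      (Nat.find hex) = orb (D.cfg F) (D.walk F k) (Nat.find hex) := by
    refine orb_congr (T := Nat.find hex) ?_ le_rfl
    intro e he
    rw [mem_Exm] at he
    obtain ⟨s, hs, rfl⟩ := he
    have hnf := Nat.find_min hex hs
    generalize orb (D.cfg F) (D.walk F k) s = w at hnf ⊢
    unfold Far at hnf
    push Not at hnf
    have hin : ae w ∈ RE b (b + 4 * L) c (c + 4 * L) := by
      obtain ⟨⟨x, y⟩, q⟩ := w
      cases q
      · rw [ae_ne, mem_RE_true]; simp only at hnf; omega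
      · rw [ae_nw, mem_RE_false]; simp only at hnf; omega
      · rw [ae_sw, mem_RE_true]; simp only at hnf; omega
      · rw [ae_se, mem_RE_false]; simp only at hnf; omega
    have hnw : ae w ∉ D.wir := by
      intro hw
      unfold Dm.wir at hw
      obtain ⟨⟨x, y⟩, q⟩ := w
      simp only at hnf
      cases q
      · rw [ae_ne] at hw
        rcases hw with ⟨-, h2, -⟩ | ⟨h1, -⟩ | ⟨-, h2, -⟩
        · simp only at h2; omega
        · simp at h1
        · simp only at h2; omega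
      · rw [ae_nw] at hw
        rcases hw with ⟨h1, -⟩ | ⟨-, h2, -⟩ | ⟨h1, -⟩
        · simp at h1
        · simp only at h2; omega
        · simp at h1
      · rw [ae_sw] at hw
        rcases hw with ⟨-, h2, -⟩ | ⟨h1, -⟩ | ⟨-, h2, -⟩
        · simp only at h2; omega
        · simp at h1
        · simp only at h2; omega
      · rw [ae_se] at hw
        rcases hw with ⟨h1, -⟩ | ⟨-, h2, -⟩ | ⟨h1, -⟩
        · simp at h1
        · simp only at h2; omega
        · simp at h1
    unfold Dm.cfg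
    rw [Finset.coe_inter]
    constructor
    · rintro (h | h)
      · exact ⟨h, hin⟩
      · exact absurd h hnw
    · rintro ⟨h, -⟩
      exact Or.inl h
  refine ⟨D.walk F k, Nat.find hex, ?_, ?_, by omega⟩
  · unfold inR
    rw [← hv]
    omega
  · rw [hcong, ← hv]
    exact Nat.find_spec hex

/-- The block is away from the sides. -/
def Inn (D : Dm) (W : ℤ) (q : Vtx) : Prop :=
  D.l ≤ q.1 * W - 5 * W ∧ q.1 * W + 6 * W ≤ D.r ∧ 5 ≤ q.2 ∧ q.2 * W + 6 * W ≤ D.h

theorem Inn_Lam {D : Dm} {W : ℤ} (hW : 1 ≤ W) {q : Vtx} (h : Inn D W q) :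
    TH992.L.Lam W q ⊆ D.edges := by
  obtain ⟨h1, h2, h3, h4⟩ := h
  unfold TH992.L.Lam Dm.edges
  have h5 : 5 * W ≤ q.2 * W := mul_le_mul_of_nonneg_right h3 (by omega)
  exact RE_subset (by omega) (by omega) (by omega) (by omega)

theorem bk_in {W : ℤ} (hW : 1 ≤ W) {u v : Vtx} (h : sd u v ≤ W) :
    (bk W u).1 * W - W ≤ v.1 ∧ v.1 < (bk W u).1 * W + 2 * W ∧
    (bk W u).2 * W - W ≤ v.2 ∧ v.2 < (bk W u).2 * W + 2 * W :=
  blk_in hW h

/-- A piece of the path with vertices near a good block. -/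
theorem nofastN {D : Dm} {W R L w : ℤ} {n0 M : ℕ} (hp : Par R L w W n0) {q : Vtx}
    (hq : Inn D W q) {F : Finset Edg} (hB : ¬ Bad M R L w W n0 q F) {k l : ℕ} (hkl : k ≤ l)
    (hx1 : q.1 * W - W ≤ (D.walk F k).1.1) (hx2 : (D.walk F k).1.1 < q.1 * W + 2 * W)
    (hy1 : q.2 * W - W ≤ (D.walk F k).1.2) (hy2 : (D.walk F k).1.2 < q.2 * W + 2 * W)
    (hd : W ≤ sd (D.walk F k).1 (D.walk F l).1) : M ≤ l - k := by
  obtain ⟨hR, hRL, hW, hw, hWw⟩ := hp
  obtain ⟨h1, h2, h3, h4⟩ := hq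
  have hL : 0 < L := by omega
  have h5 : 5 * W ≤ q.2 * W := mul_le_mul_of_nonneg_right h3 (by omega)
  by_contra hM
  apply hB
  left
  have hb := bulk_locN (D := D) (M := M) hR hRL hkl (by
    unfold Dm.bd
    rw [le_min_iff, le_min_iff, le_min_iff]
    refine ⟨⟨?_, ?_⟩, ?_, ?_⟩ <;> omega) (H984H.det_far (show R ≤ H984H.sd _ _ from
      le_trans (by omega) hd)) (by omega)
  refine ⟨_, ?_, _, ?_, ?_, hb⟩
  · rw [mem_Ico, Int.le_ediv_iff_mul_le hL, Int.ediv_lt_iff_lt_mul hL]
    have e1 : (q.1 - 1) * n0 * L = q.1 * W - W := by rw [hW]; ring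
    have e2 : (q.1 + 2) * n0 * L = q.1 * W + 2 * W := by rw [hW]; ring
    rw [e1, e2]
    exact ⟨hx1, hx2⟩
  · rw [mem_Ico, Int.le_ediv_iff_mul_le hL, Int.ediv_lt_iff_lt_mul hL]
    have e1 : (q.2 - 1) * n0 * L = q.2 * W - W := by rw [hW]; ring
    have e2 : (q.2 + 2) * n0 * L = q.2 * W + 2 * W := by rw [hW]; ring
    rw [e1, e2]
    exact ⟨hy1, hy2⟩
  · rw [Int.le_ediv_iff_mul_le hL]
    omega

open Classical in
/-- The path spends a long time near a good block. -/
theorem good_timeN {D : Dm} {W R L w : ℤ} {n0 M : ℕ} (hp : Par R L w W n0) {q : Vtx}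
    (hq : Inn D W q) {F : Finset Edg} (hB : ¬ Bad M R L w W n0 q F) {k l τ T : ℕ}
    (h1 : k ≤ τ) (h2 : τ ≤ l) (h3 : k ≤ T) (h4 : T ≤ l) (hτ : bk W (D.walk F τ).1 = q)
    (hd : W ≤ sd (D.walk F τ).1 (D.walk F T).1) :
    M ≤ ((Finset.Icc k l).filter (fun t => sd (bk W (D.walk F t).1) q ≤ 1)).card := by
  have hW : 1 ≤ W := by
    obtain ⟨hR, hRL, hW, hw, hWw⟩ := hp
    omega
  -- the interval
  have main : ∀ s e : ℕ, s ≤ e → k ≤ s → e ≤ l → W ≤ sd (D.walk F s).1 (D.walk F e).1 →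
      (∀ t, s ≤ t → t ≤ e → sd (D.walk F τ).1 (D.walk F t).1 ≤ W) →
      M ≤ ((Finset.Icc k l).filter (fun t => sd (bk W (D.walk F t).1) q ≤ 1)).card := by
    intro s e hse hks hel hse2 hnear
    obtain ⟨x1, x2, y1, y2⟩ := bk_in hW (hnear s le_rfl hse)
    rw [hτ] at x1 x2 y1 y2
    have h5 := nofastN hp hq hB hse x1 x2 y1 y2 hse2
    have h6 : Finset.Icc s e ⊆
        (Finset.Icc k l).filter (fun t => sd (bk W (D.walk F t).1) q ≤ 1) := by
      intro t ht
      rw [mem_Icc] at ht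
      rw [mem_filter, mem_Icc]
      refine ⟨by omega, ?_⟩
      rw [← hτ]
      refine le_trans (le_of_eq (H984H.det_sd_comm _ _)) ?_
      exact bk_step hW (hnear t ht.1 ht.2)
    have h7 := card_le_card h6
    rw [Nat.card_Icc] at h7
    omega
  rcases le_total τ T with hT | hT
  · obtain ⟨i, e1, e2, e3, e4⟩ := H984H.det_first (fun s => (D.walk F s).1)
      (fun s => walk_step D F s) hT hd
    refine main τ i e1 h1 (by omega) e3 (fun t t1 t2 => ?_)
    have : sd (D.walk F τ).1 (D.walk F t).1 ≤ max W 0 := e4 t t1 t2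
    omega
  · obtain ⟨i, e1, e2, e3, e4⟩ := H984H.det_last (fun s => (D.walk F s).1)
      (fun s => walk_step D F s) hT hd
    refine main i τ e2 (by omega) h2 (e3.trans (le_of_eq (H984H.det_sd_comm _ _)))
      (fun t t1 t2 => ?_)
    have : sd (D.walk F τ).1 (D.walk F t).1 ≤ max W 0 := e4 t t1 t2
    omega

open Classical in
theorem sum_time {β : ℕ → Vtx} {k l M : ℕ} {G : Finset Vtx}
    (hT : ∀ q ∈ G, M ≤ ((Finset.Icc k l).filter (fun t => sd (β t) q ≤ 1)).card) :
    G.card * M ≤ (l + 1 - k) * 9 := by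
  have h1 : G.card * M ≤ ∑ q ∈ G, ((Finset.Icc k l).filter (fun t => sd (β t) q ≤ 1)).card := by
    rw [← smul_eq_mul]
    exact card_nsmul_le_sum _ _ _ hT
  refine h1.trans ?_
  have h2 : ∑ q ∈ G, ((Finset.Icc k l).filter (fun t => sd (β t) q ≤ 1)).card =
      ∑ t ∈ Finset.Icc k l, (G.filter (fun q => sd (β t) q ≤ 1)).card := by
    simp only [card_filter]
    exact sum_comm
  rw [h2]
  refine (sum_le_card_nsmul _ _ 9 fun t _ => ?_).trans ?_
  · rw [← card_nb9 (β t)]
    refine card_le_card fun q hq => ?_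
    rw [mem_filter] at hq
    exact mem_nb9.mpr hq.2
  · rw [Nat.card_Icc, smul_eq_mul]

/-- a bound for the number of blocks near the sides -/
noncomputable def bc (D : Dm) (W : ℕ) : ℕ :=
  (14 * (D.h / W + 1) + 14 * ((D.r - D.l) / W + 2)).toNat

open Classical in
theorem bdry_card {D : Dm} (hD : D.Ok) {F : Finset Edg} (hF : F ⊆ D.edges) {W : ℕ} (hW : 1 ≤ W)
    {k l : ℕ} : ((vb D W F k l).filter (fun q => ¬ Inn D W q)).card ≤ bc D W := by
  have hD' := hD
  obtain ⟨d1, d2, d3, -, -⟩ := hD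
  have hW' : (0 : ℤ) < W := by exact_mod_cast hW
  have e0 : (W : ℤ) * (D.l / W) ≤ D.l := Int.mul_ediv_self_le hW'.ne'
  have e1 : D.l < (W : ℤ) * (D.l / W) + W := Int.lt_mul_ediv_self_add hW'
  have e2 : (W : ℤ) * (D.r / W) ≤ D.r := Int.mul_ediv_self_le hW'.ne'
  have e3 : D.r < (W : ℤ) * (D.r / W) + W := Int.lt_mul_ediv_self_add hW'
  have e4 : (W : ℤ) * (D.h / W) ≤ D.h := Int.mul_ediv_self_le hW'.ne'
  have e5 : D.h < (W : ℤ) * (D.h / W) + W := Int.lt_mul_ediv_self_add hW'
  have e6 : (W : ℤ) * ((D.r - D.l) / W) ≤ D.r - D.l := Int.mul_ediv_self_le hW'.ne'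
  have e7 : D.r - D.l < (W : ℤ) * ((D.r - D.l) / W) + W := Int.lt_mul_ediv_self_add hW'
  set a := D.l / (W : ℤ) with ha
  set b := D.r / (W : ℤ) with hb
  set h := D.h / (W : ℤ) with hh
  set g := (D.r - D.l) / (W : ℤ) with hg
  have key : ∀ s t : ℤ, (W : ℤ) * s < (W : ℤ) * t + W → s ≤ t := by
    intro s t hst
    by_contra hcon
    push Not at hcon
    have : (W : ℤ) * (t + 1) ≤ (W : ℤ) * s := mul_le_mul_of_nonneg_left (by omega) (by omega)
    have e : (W : ℤ) * (t + 1) = (W : ℤ) * t + W := by ring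
    omega
  have hsub : (vb D W F k l).filter (fun q => ¬ Inn D W q) ⊆
      ((Finset.Icc a (a + 6) ∪ Finset.Icc (b - 6) b) ×ˢ Finset.Icc 0 h) ∪
      (Finset.Icc a b ×ˢ (Finset.Icc 0 4 ∪ Finset.Icc (h - 6) h)) := by
    intro q hq
    rw [mem_filter] at hq
    obtain ⟨hq1, hq2⟩ := hq
    unfold vb at hq1
    rw [mem_vset] at hq1
    obtain ⟨t, -, -, rfl⟩ := hq1
    have hin := walk_in hD' hF t
    obtain ⟨v, hv⟩ : ∃ v, v = (D.walk F t).1 := ⟨_, rfl⟩
    rw [← hv] at hin hq2 ⊢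
    obtain ⟨i1, i2⟩ := hin
    obtain ⟨x, y⟩ := v
    simp only at i1 i2
    have f1 : (W : ℤ) * (x / W) ≤ x := Int.mul_ediv_self_le hW'.ne'
    have f2 : x < (W : ℤ) * (x / W) + W := Int.lt_mul_ediv_self_add hW'
    have f3 : (W : ℤ) * (y / W) ≤ y := Int.mul_ediv_self_le hW'.ne'
    have f4 : y < (W : ℤ) * (y / W) + W := Int.lt_mul_ediv_self_add hW'
    unfold Inn bk at hq2
    simp only at hq2
    unfold bk
    simp only [mem_union, mem_product, mem_Icc]
    generalize x / (W : ℤ) = X at *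
    generalize y / (W : ℤ) = Y at *
    have g1 := key a X (by omega)
    have g2 := key X b (by omega)
    have g3 := key 0 Y (by omega)
    have g4 := key Y h (by omega)
    have hcase : X * (W : ℤ) - 5 * W < D.l ∨ D.r < X * (W : ℤ) + 6 * W ∨ Y < 5 ∨
        D.h < Y * (W : ℤ) + 6 * W := by
      by_contra hcon
      push Not at hcon
      exact hq2 ⟨hcon.1, hcon.2.1, hcon.2.2.1, hcon.2.2.2⟩
    rcases hcase with h1 | h1 | h1 | h1
    · have := key X (a + 6) (by
        have e : (W : ℤ) * (a + 6) = W * a + 6 * W := by ring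
        rw [e, mul_comm (W : ℤ) X]
        omega)
      left
      exact ⟨Or.inl ⟨by omega, by omega⟩, by omega, by omega⟩
    · have := key (b - 6) X (by
        have e : (W : ℤ) * (b - 6) = W * b - 6 * W := by ring
        rw [e, mul_comm (W : ℤ) X]
        omega)
      left
      exact ⟨Or.inr ⟨by omega, by omega⟩, by omega, by omega⟩
    · right
      exact ⟨⟨by omega, by omega⟩, Or.inl ⟨by omega, by omega⟩⟩
    · have := key (h - 6) Y (by
        have e : (W : ℤ) * (h - 6) = W * h - 6 * W := by ring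
        rw [e, mul_comm (W : ℤ) Y]
        omega)
      right
      exact ⟨⟨by omega, by omega⟩, Or.inr ⟨by omega, by omega⟩⟩
  refine (card_le_card hsub).trans ((card_union_le _ _).trans ?_)
  rw [card_product, card_product]
  have c1 : (Finset.Icc a (a + 6) ∪ Finset.Icc (b - 6) b).card ≤ 14 := by
    refine (card_union_le _ _).trans ?_
    rw [Int.card_Icc, Int.card_Icc]
    omega
  have c2 : (Finset.Icc (0:ℤ) 4 ∪ Finset.Icc (h - 6) h).card ≤ 14 := by
    refine (card_union_le _ _).trans ?_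
    rw [Int.card_Icc, Int.card_Icc]
    omega
  have c3 : (Finset.Icc (0:ℤ) h).card = (h + 1).toNat := by
    rw [Int.card_Icc]
    omega
  have c4 : (Finset.Icc a b).card = (b + 1 - a).toNat := by
    rw [Int.card_Icc]
  have hh0 : 0 ≤ h := by
    have := key 0 h (by omega)
    omega
  have hba : b - a ≤ g + 1 := by
    have := key (b - a - 1) g (by
      have e : (W : ℤ) * (b - a - 1) = W * b - W * a - W := by ring
      rw [e]
      omega)
    omega
  have hg0 : 0 ≤ g := key 0 g (by omega)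
  rw [c3, c4]
  have c5 := Nat.mul_le_mul_right (h + 1).toNat c1
  have c6 := Nat.mul_le_mul_left (b + 1 - a).toNat c2
  refine (Nat.add_le_add c5 c6).trans ?_
  unfold bc
  rw [← hh, ← hg]
  omega

open Classical in
/-- Outside the exceptional events the duration is at least a multiple of the number of blocks. -/
theorem low_det {D : Dm} (hD : D.Ok) {F : Finset Edg} (hF : F ⊆ D.edges) {W : ℕ} {R L w : ℤ}
    {n0 M N0 Nm : ℕ} (hp : Par R L w W n0) (hNm : D.len F + 1 ≤ Nm) {k l : ℕ} (hkl : k ≤ l)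
    (hl : l ≤ D.len F)
    (hn : ¬ Holes D.edges M R L w W n0 N0 Nm (bk W (D.walk F k).1) F)
    (hA : 10 ≤ (vb D W F k l).card) :
    3 * (M * (vb D W F k l).card) ≤ 36 * (l + 1 - k) + M * (N0 + 4 * bc D W) := by
  have hW' : (1 : ℤ) ≤ W := by
    obtain ⟨hR, hRL, hW, hw, hWw⟩ := hp
    omega
  have hW : 1 ≤ W := by exact_mod_cast hW'
  set A := vb D W F k l with hAdef
  set S1 := A.filter (fun q => ¬ Inn D W q) with hS1
  set S2 := A.filter (fun q => Inn D W q) with hS2
  set Bd := S2.filter (fun q => Bad M R L w W n0 q F) with hBd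
  set G := S2.filter (fun q => ¬ Bad M R L w W n0 q F) with hG
  have c1 : S2.card + S1.card = A.card := card_filter_add_card_filter_not _
  have c2 : Bd.card + G.card = S2.card := card_filter_add_card_filter_not _
  have c3 : S1.card ≤ bc D W := bdry_card hD hF hW
  have c4 : 4 * Bd.card ≤ max A.card N0 := by
    obtain ⟨c, hc⟩ := pigeon (le_refl Bd.card)
    by_contra hcon
    push Not at hcon
    apply hn
    obtain ⟨h2, h3⟩ := vb_AS (D := D) (F := F) hW hkl
    have h4 := vb_card (D := D) (F := F) (W := W) (k := k) hl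
    rw [← hAdef] at h2 h3 h4
    refine ⟨A.card, mem_range.mpr ?_, A, h3, rfl, Bd.filter (fun q => cls q = c), ?_, ⟨?_, ?_, ?_⟩, ?_⟩
    · omega
    · rw [mem_powerset]
      intro q hq
      exact (mem_filter.mp (mem_filter.mp (mem_filter.mp hq).1).1).1
    · intro q hq r hr
      rw [(mem_filter.mp hq).2, (mem_filter.mp hr).2]
    · intro q hq
      exact Inn_Lam hW' (mem_filter.mp (mem_filter.mp (mem_filter.mp hq).1).1).2
    · omega
    · intro q hq
      exact (mem_filter.mp (mem_filter.mp hq).1).2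
  have c5 : G.card * M ≤ (l + 1 - k) * 9 := by
    refine sum_time (β := fun t => bk W (D.walk F t).1) fun q hq => ?_
    rw [hG, mem_filter, hS2, mem_filter] at hq
    obtain ⟨⟨hqA, hqI⟩, hqB⟩ := hq
    have hqA' := hqA
    rw [hAdef] at hqA'
    unfold vb at hqA'
    rw [mem_vset] at hqA'
    obtain ⟨τ, t1, t2, t3⟩ := hqA'
    -- a far block
    obtain ⟨q', hq', hne⟩ : ∃ q' ∈ A, q' ∉ nb9 q := by
      by_contra hcon
      push Not at hcon
      have := card_le_card (fun x hx => hcon x hx : A ⊆ nb9 q)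
      rw [card_nb9] at this
      omega
    rw [hAdef] at hq'
    unfold vb at hq'
    rw [mem_vset] at hq'
    obtain ⟨T, u1, u2, u3⟩ := hq'
    have hfar : W ≤ sd (D.walk F τ).1 (D.walk F T).1 := by
      by_contra hcon
      push Not at hcon
      apply hne
      rw [mem_nb9]
      have := bk_step hW' hcon.le
      rw [t3, u3] at this
      exact this
    exact good_timeN hp hqI hqB t1 t2 u1 u2 t3 hfar
  have c6 : A.card ≤ G.card + Bd.card + bc D W := by omega
  have c7 : 3 * A.card ≤ 4 * G.card + N0 + 4 * bc D W := by omega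
  calc 3 * (M * A.card) = M * (3 * A.card) := by ring
    _ ≤ M * (4 * G.card + N0 + 4 * bc D W) := Nat.mul_le_mul_left M c7
    _ = 4 * (G.card * M) + M * (N0 + 4 * bc D W) := by ring
    _ ≤ 36 * (l + 1 - k) + M * (N0 + 4 * bc D W) := by omega

end Y994.MC
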