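import Pool.Agent.TH992.L.BadPr
import Pool.Agent.Y994.MC.UpP

/-!
Lower bound: a connected set of blocks contains few bad blocks.
-/

set_option autoImplicit false

namespace Y994.MC

open H974 Finset H342P H984P TH992.L

/-- the probability that all blocks of a set are bad -/
theorem all_badS {S : Finset Edg} {W R L w : ℤ} {n0 M : ℕ} (hp : Par R L w W n0) {η : ℝ}
    {B : Finset Vtx} (hcl : ∀ q ∈ B, ∀ r ∈ B, cls q = cls r) (hB : ∀ q ∈ B, Lam W q ⊆ S)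
    (hpr : ∀ q ∈ B, Pr (fun _ => (1/2:ℝ)) S (Bad M R L w W n0 q) ≤ η) :
    Pr (fun _ => (1/2:ℝ)) S (fun F => ∀ q ∈ B, Bad M R L w W n0 q F) ≤ η ^ B.card := by
  classical
  obtain ⟨hR, hRL, hW, hw, hWw⟩ := hp
  have h1 : Pr (fun _ => (1/2:ℝ)) S (fun F => ∀ q ∈ B, Bad M R L w W n0 q F) =
      Ex (fun _ => (1/2:ℝ)) S (fun F => ∏ q ∈ B, ind (Bad M R L w W n0 q F)) := by
    refine Ex_congr fun F _ => ?_
    by_cases h : ∀ q ∈ B, Bad M R L w W n0 q F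
    · rw [ind_of h, prod_eq_one fun q hq => ind_of (h q hq)]
    · rw [ind_not_of h]
      push Not at h
      obtain ⟨q, hq, hn⟩ := h
      rw [prod_eq_zero hq (ind_not_of hn)]
  rw [h1, TH992.T.Ex_prod_indep B (Lam W) hB
    (fun q hq r hr hne => Lam_disj (by omega) (hcl q hq r hr) hne)
    (fun q F => ind (Bad M R L w W n0 q F))
    (fun q _ F _ => ind_congr (bad_local (by omega) hW (by omega) F)), ← prod_const]
  exact prod_le_prod (fun q _ => Ex_nonneg half_ok fun F _ => ind_nonneg _) hpr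

/-- A connected set of blocks with many bad blocks. -/
def Holes (S : Finset Edg) (M : ℕ) (R L w W : ℤ) (n0 N0 Nm : ℕ) (q0 : Vtx) (F : Finset Edg) :
    Prop :=
  ∃ N ∈ range (Nm + 1), ∃ A ∈ AS (2 * (N - 1)) q0, A.card = N ∧ ∃ B ∈ A.powerset,
    ((∀ q ∈ B, ∀ r ∈ B, cls q = cls r) ∧ (∀ q ∈ B, Lam W q ⊆ S) ∧
    max N N0 ≤ 196 * B.card) ∧ ∀ q ∈ B, Bad M R L w W n0 q F

theorem holes_pr {S : Finset Edg} {W R L w : ℤ} {n0 M : ℕ} (hp : Par R L w W n0)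
    (hbad : ∀ (q : Vtx), Lam W q ⊆ S →
      Pr (fun _ => (1/2:ℝ)) S (Bad M R L w W n0 q) ≤ (1/648) ^ 196) (N0 Nm : ℕ) (q0 : Vtx) :
    Pr (fun _ => (1/2:ℝ)) S (Holes S M R L w W n0 N0 Nm q0) ≤ 2 * (1/2) ^ N0 := by
  classical
  have step : ∀ N : ℕ, ∀ A ∈ AS (2 * (N - 1)) q0,
      Pr (fun _ => (1/2:ℝ)) S (fun F => A.card = N ∧ ∃ B ∈ A.powerset,
        ((∀ q ∈ B, ∀ r ∈ B, cls q = cls r) ∧ (∀ q ∈ B, Lam W q ⊆ S) ∧
        max N N0 ≤ 196 * B.card) ∧ ∀ q ∈ B, Bad M R L w W n0 q F) ≤ (1/324) ^ (max N N0) := by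
    intro N A _
    by_cases hc : A.card = N
    · refine (Pr_mono half_ok (B := fun F => ∃ B ∈ A.powerset,
        ((∀ q ∈ B, ∀ r ∈ B, cls q = cls r) ∧ (∀ q ∈ B, Lam W q ⊆ S) ∧
        max N N0 ≤ 196 * B.card) ∧ ∀ q ∈ B, Bad M R L w W n0 q F) fun F _ h => h.2).trans ?_
      refine (Pr_exists_le half_ok _ _ _).trans ?_
      have hone : ∀ B ∈ A.powerset, Pr (fun _ => (1/2:ℝ)) S (fun F =>
          ((∀ q ∈ B, ∀ r ∈ B, cls q = cls r) ∧ (∀ q ∈ B, Lam W q ⊆ S) ∧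
          max N N0 ≤ 196 * B.card) ∧ ∀ q ∈ B, Bad M R L w W n0 q F) ≤ (1/648) ^ (max N N0) := by
        intro B hB
        by_cases hcl : (∀ q ∈ B, ∀ r ∈ B, cls q = cls r) ∧ (∀ q ∈ B, Lam W q ⊆ S) ∧
            max N N0 ≤ 196 * B.card
        · refine (Pr_mono half_ok (B := fun F => ∀ q ∈ B, Bad M R L w W n0 q F)
            fun F _ h => h.2).trans ?_
          refine (all_badS hp hcl.1 hcl.2.1 fun q hq => hbad q (hcl.2.1 q hq)).trans ?_
          rw [← pow_mul]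
          exact pow_le_pow_of_le_one (by norm_num) (by norm_num) hcl.2.2
        · have h0 : Pr (fun _ => (1/2:ℝ)) S (fun F =>
              ((∀ q ∈ B, ∀ r ∈ B, cls q = cls r) ∧ (∀ q ∈ B, Lam W q ⊆ S) ∧
              max N N0 ≤ 196 * B.card) ∧ ∀ q ∈ B, Bad M R L w W n0 q F) = 0 := by
            unfold Pr
            rw [Ex_congr (g := fun _ => 0) (fun F _ => ind_not_of
              (fun h => hcl h.1)), Ex_const]
          rw [h0]
          positivity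
      refine (sum_le_card_nsmul _ _ _ hone).trans ?_
      rw [card_powerset, hc, nsmul_eq_mul]
      push_cast
      have h3 : (2:ℝ) ^ N ≤ 2 ^ (max N N0) := pow_le_pow_right₀ (by norm_num) (le_max_left _ _)
      calc (2:ℝ) ^ N * (1/648) ^ (max N N0) ≤ 2 ^ (max N N0) * (1/648) ^ (max N N0) :=
            mul_le_mul_of_nonneg_right h3 (by positivity)
        _ = (1/324) ^ (max N N0) := by
            rw [← mul_pow]; norm_num
    · have h0 : Pr (fun _ => (1/2:ℝ)) S (fun F => A.card = N ∧ ∃ B ∈ A.powerset,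
          ((∀ q ∈ B, ∀ r ∈ B, cls q = cls r) ∧ (∀ q ∈ B, Lam W q ⊆ S) ∧
          max N N0 ≤ 196 * B.card) ∧ ∀ q ∈ B, Bad M R L w W n0 q F) = 0 := by
        unfold Pr
        rw [Ex_congr (g := fun _ => 0) (fun F _ => ind_not_of (fun h => hc h.1)), Ex_const]
      rw [h0]
      positivity
  unfold Holes
  refine (Pr_exists_le half_ok _ _ _).trans ?_
  have h2 : ∀ N ∈ range (Nm + 1), Pr (fun _ => (1/2:ℝ)) S (fun F =>
      ∃ A ∈ AS (2 * (N - 1)) q0, A.card = N ∧ ∃ B ∈ A.powerset,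
        ((∀ q ∈ B, ∀ r ∈ B, cls q = cls r) ∧ (∀ q ∈ B, Lam W q ⊆ S) ∧
        max N N0 ≤ 196 * B.card) ∧ ∀ q ∈ B, Bad M R L w W n0 q F) ≤ (1/2) ^ N0 * (1/2) ^ N := by
    intro N _
    refine (Pr_exists_le half_ok _ _ _).trans ?_
    refine (sum_le_card_nsmul _ _ _ (step N)).trans ?_
    rw [nsmul_eq_mul]
    have h3 := AS_card' N q0
    have h4 : ((AS (2 * (N - 1)) q0).card : ℝ) ≤ 81 ^ (max N N0) :=
      h3.trans (pow_le_pow_right₀ (by norm_num) (le_max_left _ _))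
    calc ((AS (2 * (N - 1)) q0).card : ℝ) * (1/324) ^ (max N N0)
        ≤ 81 ^ (max N N0) * (1/324) ^ (max N N0) :=
          mul_le_mul_of_nonneg_right h4 (by positivity)
      _ = (1/4) ^ (max N N0) := by
          rw [← mul_pow]; norm_num
      _ ≤ (1/2) ^ N0 * (1/2) ^ N := four_max N N0
  refine (sum_le_sum h2).trans ?_
  rw [← mul_sum]
  have h5 := sum_geometric_two_le (Nm + 1)
  have h6 : (0:ℝ) ≤ (1/2) ^ N0 := by positivity
  calc (1/2 : ℝ) ^ N0 * ∑ i ∈ range (Nm + 1), (1/2) ^ i ≤ (1/2) ^ N0 * 2 :=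
        mul_le_mul_of_nonneg_left h5 h6
    _ = 2 * (1/2) ^ N0 := by ring

end Y994.MC
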