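import Pool.Agent.Y994.MC.Area

/-!
The comparison of the natural time and the area of the neighbourhoods, at one scale and for small
meshes.
-/

set_option autoImplicit false

namespace Y994.MC

open H974 Finset H342P H984P H984N MeasureTheory

/-- area of a neighbourhood of a piece of a curve -/
noncomputable def ar (r : ℝ) (f : C(unitInterval, ℂ)) (s t : unitInterval) : ℝ :=
  volume.real (Metric.thickening r (f '' Set.Icc s t))

theorem ar_nonneg (r : ℝ) (f : C(unitInterval, ℂ)) (s t : unitInterval) : 0 ≤ ar r f s t :=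
  measureReal_nonneg

/-- the time is at most a multiple of the area -/
def EU (c e r : ℝ) : Set X :=
  {p | ∀ s t : unitInterval, s ≤ t → ((t:ℝ) - s) * p.2 ≤ c * ar r p.1 s t + e}

/-- the area is at most a multiple of the time -/
def EL (c e r : ℝ) : Set X :=
  {p | ∀ s t : unitInterval, s ≤ t → ar r p.1 s t ≤ c * (((t:ℝ) - s) * p.2) + e}

theorem real_upper {K x w V N0 δ : ℝ} (hK : 0 < K) (hx : 0 < x) (hw1 : x / 2 ≤ w) (hw2 : w ≤ x)
    (hV : 0 ≤ V) (hN0 : 0 ≤ N0) (hδ : 0 < δ) (hδx : δ ≤ x) :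
    w ^ (7/4 : ℝ) * (K * (V / (3 * (w / 2) ^ 2) + N0)) + δ ^ (7/4 : ℝ) ≤
      (4 * K + 1) * x ^ (-(1/4) : ℝ) * V + (K * N0 + 1) * x ^ (7/4 : ℝ) := by
  have hw : 0 < w := by linarith
  have h1 : w ^ (7/4 : ℝ) ≤ x ^ (7/4 : ℝ) := Real.rpow_le_rpow hw.le hw2 (by norm_num)
  have h2 : δ ^ (7/4 : ℝ) ≤ x ^ (7/4 : ℝ) := Real.rpow_le_rpow hδ.le hδx (by norm_num)
  have h3 : w ^ (7/4 : ℝ) = w ^ 2 * w ^ (-(1/4) : ℝ) := by
    rw [← Real.rpow_natCast w 2, ← Real.rpow_add hw]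
    norm_num
  have h4 : w ^ (-(1/4) : ℝ) ≤ 2 * x ^ (-(1/4) : ℝ) := by
    have h5 : w ^ (-(1/4) : ℝ) ≤ (x / 2) ^ (-(1/4) : ℝ) :=
      Real.rpow_le_rpow_of_nonpos (by positivity) hw1 (by norm_num)
    have h6 : (x / 2) ^ (-(1/4) : ℝ) = x ^ (-(1/4) : ℝ) * 2 ^ (1/4 : ℝ) := by
      rw [Real.div_rpow hx.le (by norm_num), Real.rpow_neg (by norm_num : (0:ℝ) ≤ 2),
        div_inv_eq_mul]
    have h7 : (2:ℝ) ^ (1/4 : ℝ) ≤ 2 := by
      calc (2:ℝ) ^ (1/4 : ℝ) ≤ 2 ^ (1 : ℝ) :=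
            Real.rpow_le_rpow_of_exponent_le (by norm_num) (by norm_num)
        _ = 2 := Real.rpow_one 2
    have h8 : 0 < x ^ (-(1/4) : ℝ) := Real.rpow_pos_of_pos hx _
    rw [h6] at h5
    nlinarith
  have e1 : w ^ (7/4 : ℝ) * (K * (V / (3 * (w / 2) ^ 2) + N0)) =
      (4/3) * K * V * w ^ (-(1/4) : ℝ) + K * N0 * w ^ (7/4 : ℝ) := by
    have e2 : w ^ (7/4 : ℝ) * (K * (V / (3 * (w / 2) ^ 2) + N0)) =
        w ^ (7/4 : ℝ) * (K * (V / (3 * (w / 2) ^ 2))) + K * N0 * w ^ (7/4 : ℝ) := by ring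
    rw [e2, h3]
    congr 1
    field_simp
    ring
  rw [e1]
  have h5 : (4/3) * K * V * w ^ (-(1/4) : ℝ) ≤ (4/3) * K * V * (2 * x ^ (-(1/4) : ℝ)) :=
    mul_le_mul_of_nonneg_left h4 (by positivity)
  have h6 : K * N0 * w ^ (7/4 : ℝ) ≤ K * N0 * x ^ (7/4 : ℝ) :=
    mul_le_mul_of_nonneg_left h1 (by positivity)
  have h7 : 0 ≤ V * x ^ (-(1/4) : ℝ) := by positivity
  have h8 : (4/3) * K * V * (2 * x ^ (-(1/4) : ℝ)) ≤ (4 * K + 1) * x ^ (-(1/4) : ℝ) * V := by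
    nlinarith [mul_nonneg hK.le h7]
  nlinarith

theorem real_lower {K x w T N0 b δ S : ℝ} (hK : 0 < K) (hx : 0 < x) (hx1 : x ≤ 1)
    (hw1 : x / 2 ≤ w) (hw2 : w ≤ x) (hT : 0 ≤ T) (hN0 : 0 ≤ N0) (hN0x : N0 * x ≤ 4) (hS : 0 ≤ S)
    (hb0 : 0 ≤ b) (hb : b * x ≤ 56 * S + 42) (hδ : 0 < δ) (hδx : δ ≤ x) :
    (K * ((T + 2 * δ ^ (7/4 : ℝ)) / w ^ (7/4 : ℝ)) + (N0 + 9 + 2 * b)) *
      (4 * (8 * x + 3 * w) ^ 2) ≤
      1936 * K * x ^ (1/4 : ℝ) * T + 484 * (8 * K + 112 * S + 97) * x := by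
  have hw : 0 < w := by linarith
  have _hS := hS
  have h1 : x ^ (7/4 : ℝ) ≤ 4 * w ^ (7/4 : ℝ) := by
    have h2 : (x / 2) ^ (7/4 : ℝ) ≤ w ^ (7/4 : ℝ) :=
      Real.rpow_le_rpow (by positivity) hw1 (by norm_num)
    rw [Real.div_rpow hx.le (by norm_num)] at h2
    have h7 : (2:ℝ) ^ (7/4 : ℝ) ≤ 4 := by
      calc (2:ℝ) ^ (7/4 : ℝ) ≤ 2 ^ (2 : ℝ) :=
            Real.rpow_le_rpow_of_exponent_le (by norm_num) (by norm_num)
        _ = 4 := by norm_num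
    have h8 : (0:ℝ) < 2 ^ (7/4 : ℝ) := by positivity
    rw [div_le_iff₀ h8] at h2
    have h9 : 0 ≤ w ^ (7/4 : ℝ) := by positivity
    nlinarith
  have hwp : 0 < w ^ (7/4 : ℝ) := Real.rpow_pos_of_pos hw _
  have hxp : 0 < x ^ (7/4 : ℝ) := Real.rpow_pos_of_pos hx _
  have h2 : δ ^ (7/4 : ℝ) ≤ x ^ (7/4 : ℝ) := Real.rpow_le_rpow hδ.le hδx (by norm_num)
  have hδp : 0 < δ ^ (7/4 : ℝ) := Real.rpow_pos_of_pos hδ _
  have h3 : (T + 2 * δ ^ (7/4 : ℝ)) / w ^ (7/4 : ℝ) ≤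
      4 * T / x ^ (7/4 : ℝ) + 8 := by
    have h4 : (T + 2 * δ ^ (7/4 : ℝ)) / w ^ (7/4 : ℝ) ≤
        (T + 2 * x ^ (7/4 : ℝ)) / (x ^ (7/4 : ℝ) / 4) := by
      apply div_le_div₀ (by positivity) (by linarith) (by positivity)
      linarith
    refine h4.trans (le_of_eq ?_)
    field_simp
    ring
  have h5 : (4 * (8 * x + 3 * w) ^ 2) ≤ 484 * x ^ 2 := by
    have : (8 * x + 3 * w) ^ 2 ≤ (11 * x) ^ 2 :=
      pow_le_pow_left₀ (by positivity) (by linarith) 2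
    nlinarith
  have h6 : 0 ≤ K * ((T + 2 * δ ^ (7/4 : ℝ)) / w ^ (7/4 : ℝ)) + (N0 + 9 + 2 * b) := by positivity
  have e1 : x ^ 2 / x ^ (7/4 : ℝ) = x ^ (1/4 : ℝ) := by
    rw [← Real.rpow_natCast x 2, ← Real.rpow_sub hx]
    norm_num
  calc (K * ((T + 2 * δ ^ (7/4 : ℝ)) / w ^ (7/4 : ℝ)) + (N0 + 9 + 2 * b)) *
      (4 * (8 * x + 3 * w) ^ 2) ≤
      (K * ((T + 2 * δ ^ (7/4 : ℝ)) / w ^ (7/4 : ℝ)) + (N0 + 9 + 2 * b)) * (484 * x ^ 2) :=
        mul_le_mul_of_nonneg_left h5 h6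
    _ ≤ (K * (4 * T / x ^ (7/4 : ℝ) + 8) + (N0 + 9 + 2 * b)) * (484 * x ^ 2) := by
        refine mul_le_mul_of_nonneg_right ?_ (by positivity)
        have := mul_le_mul_of_nonneg_left h3 hK.le
        linarith
    _ = 1936 * K * (x ^ 2 / x ^ (7/4 : ℝ)) * T + 484 * (8 * K * x + (N0 * x) + 9 * x +
          2 * (b * x)) * x := by
        field_simp
        ring
    _ ≤ 1936 * K * x ^ (1/4 : ℝ) * T + 484 * (8 * K + 112 * S + 97) * x := by
        rw [e1]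
        have h7 : 8 * K * x + (N0 * x) + 9 * x + 2 * (b * x) ≤ 8 * K + 112 * S + 97 := by
          nlinarith
        have := mul_le_mul_of_nonneg_right h7 hx.le
        nlinarith

/-- The two comparisons hold at the scale `2 ^ (-j)` for small meshes, up to a small
probability. -/
theorem mesh {c C : ℝ} (hc : 0 < c) (hC : 0 < C) (hL : LowA c (1/4)) (hU : TwoUp C (1/4)) :
    ∃ K : ℝ, 0 < K ∧ ∀ R : Rect, ∃ B : ℝ, 0 < B ∧ ∀ j : ℕ, ∃ δ1 : ℝ, 0 < δ1 ∧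
      ∀ δ : ℝ, 0 < δ → δ ≤ δ1 → R.prob δ (fun F => (R.curve δ F, R.time δ F) ∉
        EU (K * ((1/2:ℝ) ^ j) ^ (-(1/4) : ℝ)) (K * (j + 1) * ((1/2:ℝ) ^ j) ^ (7/4 : ℝ))
          (2 * (1/2) ^ j) ∩
        EL (484 * K * ((1/2:ℝ) ^ j) ^ (1/4 : ℝ)) (B * (1/2) ^ j) (8 * (1/2) ^ j)) ≤
          B * (1/4) ^ j := by
  obtain ⟨Γ, K, hΓ, hK, hgood⟩ := good_pr hc hC hL hU
  refine ⟨4 * K + 1, by positivity, fun R => ?_⟩
  obtain ⟨κ, S, δ0, hκ, hS, hδ0, hδ01, hshape⟩ := R.shape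
  set B := 484 * (8 * K + 112 * S + 97) + 20 * (2 * S + 2) ^ 2 with hB
  have hB0 : 0 < B := by positivity
  refine ⟨B, hB0, fun j => ?_⟩
  set x : ℝ := (1/2:ℝ) ^ j with hx
  have hx0 : 0 < x := by positivity
  have hx1 : x ≤ 1 := pow_le_one₀ (by norm_num) (by norm_num)
  have hΓr : (0:ℝ) < Γ := by exact_mod_cast hΓ
  have hΓ1 : (1:ℝ) ≤ Γ := by exact_mod_cast hΓ
  refine ⟨min δ0 (x / (6 * Γ)), by positivity, fun δ hδ hδle => ?_⟩
  have hd0 : δ ≤ δ0 := hδle.trans (min_le_left _ _)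
  have hd1 : δ ≤ x / (6 * Γ) := hδle.trans (min_le_right _ _)
  have hd2 : 6 * (Γ * δ) ≤ x := by
    rw [le_div_iff₀ (by positivity)] at hd1
    linarith
  have hdx : δ ≤ x := by nlinarith
  have hsh := hshape δ hδ hd0
  have hok := hsh.ok
  set a := ⌊x / (Γ * δ)⌋₊ with ha
  have hxa : 6 ≤ x / (Γ * δ) := by
    rw [le_div_iff₀ (by positivity)]
    exact hd2
  have ha5 : 5 ≤ a := Nat.le_floor (by push_cast; linarith)
  have ha1 : (a:ℝ) ≤ x / (Γ * δ) := Nat.floor_le (by positivity)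
  have ha2 : x / (Γ * δ) < (a:ℝ) + 1 := Nat.lt_floor_add_one _
  obtain ⟨W, hW⟩ : ∃ W : ℕ, W = Γ * a := ⟨_, rfl⟩
  have hW2 : 2 ≤ W := by
    rw [hW]
    nlinarith
  have hWr : (0:ℝ) < W := by
    have : 0 < W := by omega
    exact_mod_cast this
  have hwe : δ * (W:ℝ) = Γ * δ * a := by
    rw [hW]; push_cast; ring
  have hw2 : δ * (W:ℝ) ≤ x := by
    rw [hwe]
    rw [le_div_iff₀ (by positivity)] at ha1
    linarith
  have hw1 : x / 2 ≤ δ * (W:ℝ) := by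
    rw [hwe]
    rw [div_lt_iff₀ (by positivity)] at ha2
    nlinarith
  have hw0 : 0 < δ * (W:ℝ) := by positivity
  obtain ⟨hSB, hbc⟩ := SB_card hok (W := W) (by omega) hsh.w_le hsh.h_le
  have hnW : S / δ / W ≤ 2 * S / x := by
    rw [div_div, div_le_div_iff₀ (by positivity) hx0]
    nlinarith
  have h1 := hgood (R.dm δ) hok a ha5 (4 * j)
  rw [← hW] at h1
  have hpr : ((SB (R.dm δ) W).card : ℝ) * (20 * (1/2) ^ (4 * j)) ≤ B * (1/4) ^ j := by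
    have h2 : S / δ / W + 2 ≤ (2 * S + 2) / x := by
      have : 2 ≤ 2 / x := by
        rw [le_div_iff₀ hx0]
        linarith
      rw [add_div]
      linarith
    have h3 : (S / δ / W + 2) ^ 2 ≤ ((2 * S + 2) / x) ^ 2 :=
      pow_le_pow_left₀ (by positivity) h2 2
    have e4 : ((1:ℝ)/2) ^ (4 * j) = x ^ 4 := by
      rw [hx, ← pow_mul, mul_comm]
    have e5 : ((1:ℝ)/4) ^ j = x ^ 2 := by
      rw [hx, ← pow_mul, mul_comm, pow_mul]
      norm_num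
    rw [e4, e5]
    calc ((SB (R.dm δ) W).card : ℝ) * (20 * x ^ 4) ≤ ((2 * S + 2) / x) ^ 2 * (20 * x ^ 4) :=
          mul_le_mul_of_nonneg_right (hSB.trans h3) (by positivity)
      _ = 20 * (2 * S + 2) ^ 2 * x ^ 2 := by
          field_simp
      _ ≤ B * x ^ 2 := by
          refine mul_le_mul_of_nonneg_right ?_ (by positivity)
          rw [hB]
          have : 0 ≤ 484 * (8 * K + 112 * S + 97) := by positivity
          linarith
  refine le_trans ?_ (h1.trans hpr)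
  unfold Rect.prob
  refine Pr_mono two_ok fun F hF hnot hG => hnot ?_
  have hjx : ((4 * j : ℕ) : ℝ) * x ≤ 4 := by
    have h5 : (j:ℝ) ≤ 2 ^ j := by exact_mod_cast Nat.lt_two_pow_self.le
    have h6 : x * 2 ^ j = 1 := by
      rw [hx, ← mul_pow]
      norm_num
    push_cast
    have h7 : (j:ℝ) * x ≤ 2 ^ j * x := mul_le_mul_of_nonneg_right h5 hx0.le
    linarith
  constructor
  · intro s t hst
    have h2 := area_time hok hF hδ (W := W) (by omega) hK hG (s := s) (t := t) (r := 2 * x)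
      (by linarith)
    refine h2.trans ((real_upper hK hx0 hw1 hw2 measureReal_nonneg (Nat.cast_nonneg _) hδ
      hdx).trans ?_)
    refine add_le_add (le_refl _) (mul_le_mul_of_nonneg_right ?_ (by positivity))
    push_cast
    have e12 : (4 * K + 1) * ((j:ℝ) + 1) = K * (4 * j) + 1 + (4 * K + j) := by ring
    rw [e12]
    have hj0 : (0:ℝ) ≤ j := Nat.cast_nonneg j
    linarith
  · intro s t hst
    have hst' : (s:ℝ) ≤ t := hst
    have h2 := time_area hok hF hδ hW2 hK hG hst (r := 8 * x) (by positivity)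
    refine h2.trans ((real_lower (S := S) hK hx0 hx1 hw1 hw2
      (mul_nonneg (by linarith) (by positivity))
      (Nat.cast_nonneg _) hjx hS.le (Nat.cast_nonneg _) ?_ hδ hdx).trans ?_)
    · have h7 := hbc.trans (add_le_add_left (mul_le_mul_of_nonneg_left hnW
        (by norm_num : (0:ℝ) ≤ 28)) 42)
      have h8 := mul_le_mul_of_nonneg_right h7 hx0.le
      have e : (28 * (2 * S / x) + 42) * x = 56 * S + 42 * x := by
        field_simp
        ring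
      rw [e] at h8
      linarith
    · have e9 : (R.curve δ F, R.time δ F).2 = δ ^ (7/4 : ℝ) * (R.dm δ).len F := rfl
      rw [e9]
      have h10 : 0 ≤ x ^ (1/4 : ℝ) * (((t:ℝ) - s) * (δ ^ (7/4 : ℝ) * (R.dm δ).len F)) := by
        have : 0 ≤ (t:ℝ) - s := by linarith
        positivity
      have h11 : 484 * (8 * K + 112 * S + 97) * x ≤ B * x := by
        refine mul_le_mul_of_nonneg_right ?_ hx0.le
        rw [hB]
        have : 0 ≤ 20 * (2 * S + 2) ^ 2 := by positivity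
        linarith
      have e12 : 484 * (4 * K + 1) * x ^ (1/4 : ℝ) *
          (((t:ℝ) - s) * (δ ^ (7/4 : ℝ) * (R.dm δ).len F)) = 1936 * K * x ^ (1/4 : ℝ) *
          (((t:ℝ) - s) * (δ ^ (7/4 : ℝ) * (R.dm δ).len F)) +
          484 * (x ^ (1/4 : ℝ) * (((t:ℝ) - s) * (δ ^ (7/4 : ℝ) * (R.dm δ).len F))) := by ring
      rw [e12]
      linarith

end Y994.MC
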